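import Pool.Agent.H563.AG.Fam
import Pool.Agent.H563.AG.Mom
import Pool.Agent.H563.AG.RealB
import Pool.Agent.H563.DJ.Haxell
import Pool.Graph.R_pool_sql_team_seeded_843ab51a.Results.MP_bae66e_nt.EveryEvenSmallPrime

/-!
# Even numbers as primes plus almost primes: simultaneous representations for arbitrary sets of even
numbers, with every summand used a bounded number of times

Let `r`, `θ`, `τ` be such that every large even `N` is `p + m` with a prime `p` of any given size `x ≥ N ^ θ` and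
an almost prime `m` (at most `r` prime factors, all at least `N ^ (τ / 4) / 2`); for `θ` near `1` one may take `r = 3`.

Given an ARBITRARY set `S` of `M` even numbers of `(X, 2 X]`, can one choose `t` different representations
`N = p + m` of this kind for each `N ∈ S` in such a way that no integer is used more than `K` times, as `p` or as
`m`? (`K = 1`: all the representations are disjoint.) We determine the order of the `K` for which this is always
possible: it is `max(1, t M ℓ(M) log X / x)`, `ℓ(M) = 1 + log (1 + log (2 X / M))`. For example, all the even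
numbers of `(X, 2 X]` have such representations for which no integer is used more than `C log X` times, and the
elements of any set `S` of at most `c X / (log X · log log log X)` even numbers have pairwise disjoint ones; for the
primes `p < X ^ θ`, `θ < 1`, the latter holds for `|S| ≤ c X ^ θ / (log X · log log X)`, and these bounds are sharp.
-/

set_option autoImplicit false

namespace Pool.Agent.Results.MP_73b532_nt.BoundedLoad

open Finset
open Pool.Agent.K4H8.DP (hh W1 Mert one_le_hh)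
open Pool.Agent.H563.AG (PA mem_PA RZ mem_RZ fam main_fam ell_one_le ell_mono ell_comp realz)

/-- `ℓ(M) = 1 + log (1 + log (2 X / M))` -/
noncomputable def ell (X M : ℝ) : ℝ := 1 + Real.log (1 + Real.log (2 * X / M))

/-- `p < N` is a prime with `x / 4 < p < x` such that `N - p` has at most `r` prime factors (counted with
multiplicity), all of them at least `N ^ ζ / 2`. -/
def Rep (r : ℕ) (ζ x : ℝ) (N p : ℕ) : Prop :=
  p < N ∧ p.Prime ∧ x / 4 < p ∧ (p : ℝ) < x ∧ (N - p).primeFactorsList.length ≤ r ∧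
    ∀ q : ℕ, q.Prime → q ∣ (N - p) → (N : ℝ) ^ ζ / 2 ≤ q

/-- There are `t` different representations `N = p + (N - p)` with `Rep r ζ x N p` for each `N ∈ S` such that every
integer `v` occurs (as `p` or as `N - p`) in at most `K` of these `t |S|` representations. -/
def HasLoad (r : ℕ) (ζ x : ℝ) (t K : ℕ) (S : Finset ℕ) : Prop :=
  ∃ p : ℕ → ℕ → ℕ, (∀ N ∈ S, ∀ i < t, Rep r ζ x N (p N i)) ∧
    (∀ N ∈ S, ∀ i < t, ∀ j < t, p N i = p N j → i = j) ∧
    ∀ v : ℕ, ((S ×ˢ range t).filter (fun y => p y.1 y.2 = v ∨ y.1 - p y.1 y.2 = v)).card ≤ K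

/-- There are primes `p N i < x`, `p N i < N` (`N ∈ S`, `i < t`), such that `N - p N i` has no prime factor up to `z`
and no prime is used more than `K` times. -/
def WeakLoad (z x : ℝ) (t K : ℕ) (S : Finset ℕ) : Prop :=
  ∃ p : ℕ → ℕ → ℕ, (∀ N ∈ S, ∀ i < t, p N i < N ∧ (p N i).Prime ∧ (p N i : ℝ) < x ∧
      ∀ l : ℕ, l.Prime → (l : ℝ) ≤ z → ¬ l ∣ (N - p N i)) ∧
    ∀ v : ℕ, ((S ×ˢ range t).filter (fun y => p y.1 y.2 = v)).card ≤ K

open Classical in
/-- the primes of the representations -/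
noncomputable def reps (r : ℕ) (ζ x : ℝ) (N : ℕ) : Finset ℕ := (range N).filter (fun p => Rep r ζ x N p)

lemma mem_reps {r : ℕ} {ζ x : ℝ} {N p : ℕ} : p ∈ reps r ζ x N ↔ Rep r ζ x N p := by
  classical
  unfold reps
  rw [mem_filter, mem_range]
  exact ⟨fun h => h.2, fun h => ⟨h.1, h⟩⟩

lemma reps_card (r : ℕ) (ζ x : ℝ) (N : ℕ) : (reps r ζ x N).card =
    Pool.Agent.Results.MP_bae66e_nt.EveryEvenSmallPrime.window r ζ x N := by
  classical
  unfold Pool.Agent.Results.MP_bae66e_nt.EveryEvenSmallPrime.window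
  congr 1
  ext p
  rw [mem_reps, mem_filter, mem_range]
  unfold Rep
  exact ⟨fun h => ⟨h.1, h.2.1, h.2.2.1, h.2.2.2.1, h.2.2.2.2⟩, fun h => ⟨h.1, h.2.1, h.2.2.1, h.2.2.2.1, h.2.2.2.2⟩⟩

/-- the singular series -/
lemma sing_low (N : ℕ) (hN : 0 < N) (h2 : 2 ∣ N) :
    hh N / 2 ≤ Pool.Agent.Results.MP_bae66e_nt.EveryEvenSmallPrime.sing N := by
  classical
  have hm : 2 ∈ N.primeFactors := Nat.mem_primeFactors.2 ⟨Nat.prime_two, h2, by omega⟩
  have h1 : hh N = 2 * ∏ p ∈ N.primeFactors.erase 2, (1 - 1 / (p : ℝ))⁻¹ := by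
    unfold hh
    rw [← mul_prod_erase _ _ hm]
    norm_num
  rw [h1]
  unfold Pool.Agent.Results.MP_bae66e_nt.EveryEvenSmallPrime.sing
  rw [mul_div_cancel_left₀ _ (two_ne_zero)]
  apply prod_le_prod
  · intro p hp
    have := Pool.Agent.K4H8.DP.one_le_fac (Nat.prime_of_mem_primeFactors (mem_of_mem_erase hp)).two_le
    linarith
  · intro p hp
    rw [mem_erase] at hp
    have h3 := (Nat.prime_of_mem_primeFactors hp.2).two_le
    have h4 : (3 : ℝ) ≤ p := by exact_mod_cast (by omega : 3 ≤ p)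
    have h5 : (1 - 1 / (p : ℝ))⁻¹ = p / (p - 1) := by
      have : (p : ℝ) - 1 ≠ 0 := by linarith
      field_simp
    rw [h5, div_le_div_iff₀ (by linarith) (by linarith)]
    nlinarith

/-- the lower bound for the number of the representations -/
lemma many (r : ℕ) (θ τ : ℝ) (hτ0 : 0 < τ) (hτθ : τ < θ / 2) (hθ1 : θ ≤ 1) (hr : 10 / 9 < (r + 3 / 80) * τ) :
    ∃ δ : ℝ, 0 < δ ∧ ∃ X₀ : ℕ, ∀ X : ℕ, X₀ ≤ X → ∀ x : ℝ, (X : ℝ) ^ θ ≤ x → x ≤ X / 2 →
      ∀ N : ℕ, X < N → N ≤ 2 * X → 2 ∣ N → δ * (x / Real.log X ^ 2 * hh N) ≤ ((reps r (τ / 4) x N).card : ℝ) := by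
  obtain ⟨δ, hδ, N₀, h⟩ := Pool.Agent.Results.MP_bae66e_nt.EveryEvenSmallPrime.result r ((θ + 2 * τ) / 2) τ hτ0
    (by linarith) (by linarith) hr
  have ev1 := (tendsto_rpow_atTop (show 0 < θ - (θ + 2 * τ) / 2 by linarith)).eventually
    (Filter.eventually_ge_atTop (2 : ℝ))
  obtain ⟨x₀, hx₀⟩ := Filter.eventually_atTop.1 (ev1.and (Filter.eventually_ge_atTop (3 : ℝ)))
  refine ⟨δ / 8, by positivity, max N₀ ⌈x₀⌉₊, fun X hX x hx1 hx2 N hN1 hN2 hN3 => ?_⟩
  obtain ⟨h1, h2⟩ := hx₀ X ((Nat.le_ceil _).trans (by exact_mod_cast (le_max_right _ _).trans hX))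
  have hX0 : (0 : ℝ) < X := by linarith
  have hNr : (N : ℝ) ≤ 2 * X := by exact_mod_cast hN2
  have hNr2 : (X : ℝ) < N := by exact_mod_cast hN1
  have h3 : (N : ℝ) ^ ((θ + 2 * τ) / 2) ≤ x := by
    refine le_trans ?_ hx1
    calc (N : ℝ) ^ ((θ + 2 * τ) / 2) ≤ (2 * X) ^ ((θ + 2 * τ) / 2) :=
          Real.rpow_le_rpow (by linarith) hNr (by linarith)
      _ = 2 ^ ((θ + 2 * τ) / 2) * (X : ℝ) ^ ((θ + 2 * τ) / 2) := Real.mul_rpow (by norm_num) hX0.le
      _ ≤ (X : ℝ) ^ (θ - (θ + 2 * τ) / 2) * (X : ℝ) ^ ((θ + 2 * τ) / 2) := by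
          apply mul_le_mul_of_nonneg_right _ (by positivity)
          refine le_trans ?_ h1
          calc (2 : ℝ) ^ ((θ + 2 * τ) / 2) ≤ 2 ^ (1 : ℝ) :=
                Real.rpow_le_rpow_of_exponent_le (by norm_num) (by linarith)
            _ = 2 := Real.rpow_one 2
      _ = (X : ℝ) ^ θ := by
          rw [← Real.rpow_add hX0]
          congr 1
          ring
  have h4 := h N (by have := (le_max_left N₀ ⌈x₀⌉₊).trans hX; omega) (even_iff_two_dvd.2 hN3) x h3 (by linarith)
  rw [← reps_card] at h4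
  refine le_trans ?_ h4
  have h5 := sing_low N (by omega) hN3
  have hlX : 0 < Real.log X := Real.log_pos (by linarith)
  have hlN : 0 < Real.log N := Real.log_pos (by linarith)
  have hl : Real.log N ≤ 2 * Real.log X := by
    calc Real.log N ≤ Real.log (X * X) := Real.log_le_log (by linarith) (by nlinarith)
      _ = 2 * Real.log X := by rw [Real.log_mul (by linarith) (by linarith)]; ring
  have hx0 : 0 < x := lt_of_lt_of_le (by positivity) hx1
  have h6 : x / (4 * Real.log X ^ 2) ≤ x / Real.log N ^ 2 := by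
    apply div_le_div_of_nonneg_left hx0.le (by positivity)
    have := pow_le_pow_left₀ hlN.le hl 2
    nlinarith
  have hhN := one_le_hh N
  calc δ / 8 * (x / Real.log X ^ 2 * hh N) = δ * (hh N / 2) * (x / (4 * Real.log X ^ 2)) := by
        field_simp
        norm_num
    _ ≤ _ := by
        have h7 : 0 ≤ Pool.Agent.Results.MP_bae66e_nt.EveryEvenSmallPrime.sing N := by linarith
        apply mul_le_mul _ h6 (by positivity) (by positivity)
        exact mul_le_mul_of_nonneg_left h5 hδ.le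

lemma up (r : ℕ) (θ τ : ℝ) (hτ0 : 0 < τ) (hτθ : τ < θ / 2) (hθ1 : θ ≤ 1) (hr : 10 / 9 < (r + 3 / 80) * τ) :
    ∃ c : ℝ, 0 < c ∧ c ≤ 1 ∧ ∃ X₀ : ℕ, ∀ X : ℕ, X₀ ≤ X → ∀ x : ℝ, (X : ℝ) ^ θ ≤ x → x ≤ X / 2 → ∀ t K : ℕ, 1 ≤ K →
      (t : ℝ) ≤ c * x / Real.log X ^ 2 → ∀ S : Finset ℕ, (∀ N ∈ S, X < N ∧ N ≤ 2 * X ∧ 2 ∣ N) →
      (t : ℝ) * S.card * ell X S.card ≤ c * K * x / Real.log X → HasLoad r (τ / 4) x t K S := by
  classical
  have hθ0 : 0 < θ := by linarith
  obtain ⟨δ, hδ, X₁, hmany⟩ := many r θ τ hτ0 hτθ hθ1 hr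
  obtain ⟨A, hA, X₂, hfam⟩ := fam θ (τ / 8) hθ0 hθ1 (by positivity) (by linarith)
  obtain ⟨a, b, ha, hb, hM⟩ := Pool.Agent.Results.MP_7b7e48_nt.DeletedPrimes.mert_ex
  have hexp := Real.exp_pos 1
  obtain ⟨A', hA'⟩ : ∃ A', A' = A * (4 * Real.exp 1 * b) := ⟨_, rfl⟩
  have hA'0 : 0 < A' := by rw [hA']; positivity
  obtain ⟨c, hc⟩ : ∃ c, c = min 1 (min (δ / 36) (min ((δ / 3) ^ 2 / (96 * A)) ((δ / 3) ^ 2 / (192 * A')))) := ⟨_, rfl⟩
  have hc0 : 0 < c := by rw [hc]; positivity
  have hcδ : c ≤ δ / 36 := by rw [hc]; exact (min_le_right _ _).trans (min_le_left _ _)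
  have hcA : c ≤ (δ / 3) ^ 2 / (96 * A) := by
    rw [hc]; exact (min_le_right _ _).trans ((min_le_right _ _).trans (min_le_left _ _))
  have hcA' : c ≤ (δ / 3) ^ 2 / (192 * A') := by
    rw [hc]; exact (min_le_right _ _).trans ((min_le_right _ _).trans (min_le_right _ _))
  rw [le_div_iff₀ (by positivity)] at hcA hcA'
  obtain ⟨x₀, hx₀⟩ := Filter.eventually_atTop.1 ((Real.tendsto_log_atTop.eventually_ge_atTop 1).and
    ((tendsto_rpow_atTop (show 0 < τ / 8 by positivity)).eventually (Filter.eventually_gt_atTop (2 : ℝ))))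
  refine ⟨c, hc0, by rw [hc]; exact min_le_left _ _, max (max X₁ X₂) (max ⌈x₀⌉₊ 1), ?_⟩
  intro X hX x hx1 hx2 t K hK1 ht1 S hS hSc
  have e1 : X₁ ≤ X := (le_max_left _ _).trans ((le_max_left _ _).trans hX)
  have e2 : X₂ ≤ X := (le_max_right _ _).trans ((le_max_left _ _).trans hX)
  have hX1 : 1 ≤ X := (le_max_right _ _).trans ((le_max_right _ _).trans hX)
  obtain ⟨hLL, hXτ⟩ := hx₀ X ((Nat.le_ceil _).trans (by
    exact_mod_cast (le_max_left _ _).trans ((le_max_right _ _).trans hX)))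
  have hX1r : (1 : ℝ) ≤ X := by exact_mod_cast hX1
  have hX0 : (0 : ℝ) < X := by linarith
  obtain ⟨L, hL⟩ : ∃ L, L = Real.log (X : ℝ) := ⟨_, rfl⟩
  rw [← hL] at hLL ht1 hSc
  have hL0 : 0 < L := by linarith
  have hx0 : 0 < x := lt_of_lt_of_le (by positivity) hx1
  have hKr : (1 : ℝ) ≤ K := by exact_mod_cast hK1
  have hK0 : (0 : ℝ) < K := by linarith
  have ht0 : (0 : ℝ) ≤ t := Nat.cast_nonneg _
  obtain ⟨w, hw⟩ : ∃ w, w = (X : ℝ) ^ (τ / 4) / 2 := ⟨_, rfl⟩
  have hwX : (X : ℝ) ^ (τ / 8) < w := by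
    rw [hw]
    have h1 : (X : ℝ) ^ (τ / 4) = (X : ℝ) ^ (τ / 8) * (X : ℝ) ^ (τ / 8) := by
      rw [← Real.rpow_add hX0]
      congr 1
      ring
    rw [h1]
    nlinarith
  obtain ⟨f1, f2, f3, -⟩ := hfam X e2 x hx1 hx2 w hwX
  rw [← hL] at f1 f2 f3
  have hrep : ∀ N, X < N → reps r (τ / 4) x N ⊆ PA w x N := by
    intro N hN p hp
    obtain ⟨h1, h2, h3, h4, h5, h6⟩ := mem_reps.1 hp
    refine mem_PA.2 ⟨h1, h2, h3, h4, fun q hq hd => ?_⟩
    refine le_trans ?_ (h6 q hq hd)
    rw [hw]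
    have : (X : ℝ) ^ (τ / 4) ≤ (N : ℝ) ^ (τ / 4) := Real.rpow_le_rpow hX0.le (by exact_mod_cast hN.le) (by linarith)
    linarith
  obtain ⟨f, hf1, hf2⟩ := Pool.Agent.H563.DJ.haxell (α := ℕ × ℕ × ℕ)
    (fun (y : ℕ × ℕ) (e : Finset (ℕ × ℕ × ℕ)) => ∃ p i j : ℕ, Rep r (τ / 4) x y.1 p ∧ i < K ∧ j < K ∧
      e = {(0, p, i), (0, y.1 - p, j), (1, y.1, p)}) 3 (by
      rintro y e ⟨p, i, j, _, _, _, rfl⟩
      exact card_le_three) (S ×ˢ range t) (by
      intro 𝒮 h𝒮 hne U hU
      by_contra hcon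
      push Not at hcon
      obtain ⟨B, hB⟩ : ∃ B, B = 𝒮.image Prod.fst := ⟨_, rfl⟩
      have hBS : B ⊆ S := by
        intro n hn
        rw [hB, mem_image] at hn
        obtain ⟨y, hy, rfl⟩ := hn
        exact (mem_product.1 (h𝒮 hy)).1
      have hBpos : 1 ≤ B.card := by
        rw [hB]
        exact card_pos.2 (hne.image _)
      have h𝒮B : 𝒮.card ≤ B.card * t := by
        have : 𝒮 ⊆ B ×ˢ range t := by
          intro y hy
          rw [mem_product]
          exact ⟨by rw [hB]; exact mem_image_of_mem _ hy, (mem_product.1 (h𝒮 hy)).2⟩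
        have h2 := card_le_card this
        rwa [card_product, card_range] at h2
      have hBN : ∀ N ∈ B, X < N ∧ N ≤ 2 * X := fun N hN => ⟨(hS N (hBS hN)).1, (hS N (hBS hN)).2.1⟩
      -- the blocked integers
      obtain ⟨R, hR⟩ : ∃ R : Finset ℕ, R = (U.image (fun u => u.2.1)).filter (fun v => ∀ i < K, (0, v, i) ∈ U) := ⟨_, rfl⟩
      have hRm : ∀ v, v ∈ R ↔ ∀ i < K, (0, v, i) ∈ U := by
        intro v
        rw [hR, mem_filter, mem_image]
        constructor
        · exact fun h => h.2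
        · intro h
          exact ⟨⟨(0, v, 0), h 0 (by omega), rfl⟩, h⟩
      have hRc : K * R.card ≤ U.card := by
        have h1 : (R ×ˢ range K).card ≤ U.card := by
          apply card_le_card_of_injOn (fun y => ((0 : ℕ), y.1, y.2))
          · rintro ⟨v, i⟩ hy
            rw [mem_coe, mem_product, mem_range] at hy
            exact mem_coe.2 ((hRm v).1 hy.1 i hy.2)
          · rintro ⟨v, i⟩ _ ⟨v', i'⟩ _ h
            simp only [Prod.mk.injEq, true_and] at h
            rw [h.1, h.2]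
        rw [card_product, card_range, mul_comm] at h1
        exact h1
      obtain ⟨F, hF⟩ : ∃ F : ℕ → Finset ℕ, F = fun N => (PA w x N).filter (fun p => (1, N, p) ∈ U) := ⟨_, rfl⟩
      have hFc : ∑ N ∈ B, (F N).card ≤ U.card := by
        rw [← card_sigma]
        apply card_le_card_of_injOn (fun y : (_ : ℕ) × ℕ => ((1 : ℕ), y.1, y.2))
        · rintro ⟨N, p⟩ hy
          rw [mem_coe, mem_sigma, hF] at hy
          simp only [mem_filter] at hy
          exact mem_coe.2 hy.2.2
        · rintro ⟨N, p⟩ _ ⟨N', p'⟩ _ h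
          simp only [Prod.mk.injEq, true_and] at h
          rw [h.1, h.2]
      -- the representations meet `U`
      have hcov : ∀ N ∈ B, ((reps r (τ / 4) x N).card : ℝ) ≤ ((F N).card : ℝ) + (((R ∩ PA w x N).card : ℝ) +
          ((R ∩ (PA w x N).image (fun p => N - p)).card : ℝ)) := by
        intro N hN
        have h1 : reps r (τ / 4) x N ⊆ F N ∪ ((R ∩ PA w x N) ∪
            ((PA w x N).filter (fun p => N - p ∈ R))) := by
          intro p hp
          have hp' := hrep N (hBN N hN).1 hp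
          rw [hB, mem_image] at hN
          obtain ⟨y, hy, rfl⟩ := hN
          rw [mem_union, mem_union, mem_inter, mem_filter, hF]
          simp only [mem_filter]
          by_contra hnot
          push Not at hnot
          obtain ⟨g1, g2, g3⟩ := hnot
          have g1' : (1, y.1, p) ∉ U := g1 hp'
          have g2' : p ∉ R := fun h => g2 h hp'
          have g3' : y.1 - p ∉ R := g3 hp'
          rw [hRm] at g2' g3'
          push Not at g2' g3'
          obtain ⟨i, hi, hi'⟩ := g2'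
          obtain ⟨j, hj, hj'⟩ := g3'
          have h2 := hcon y hy {(0, p, i), (0, y.1 - p, j), (1, y.1, p)} ⟨p, i, j, mem_reps.1 hp, hi, hj, rfl⟩
          rw [not_disjoint_iff] at h2
          obtain ⟨a, ha, haU⟩ := h2
          rw [mem_insert, mem_insert, mem_singleton] at ha
          rcases ha with rfl | rfl | rfl
          · exact hi' haU
          · exact hj' haU
          · exact g1' haU
        have h2 := (card_le_card h1).trans ((card_union_le _ _).trans (Nat.add_le_add_left (card_union_le _ _) _))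
        have h3 : ((PA w x N).filter (fun p => N - p ∈ R)).card ≤ (R ∩ (PA w x N).image (fun p => N - p)).card := by
          apply card_le_card_of_injOn (fun p => N - p)
          · intro p hp
            rw [mem_coe, mem_filter] at hp
            rw [mem_coe, mem_inter]
            exact ⟨hp.2, mem_image_of_mem _ hp.1⟩
          · intro p hp q hq hpq
            rw [mem_coe, mem_filter] at hp hq
            have h4 := (mem_PA.1 hp.1).1
            have h5 := (mem_PA.1 hq.1).1
            simp only at hpq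
            omega
        exact_mod_cast h2.trans (Nat.add_le_add_left (Nat.add_le_add_left h3 _) _)
      obtain ⟨B₀, hB₀⟩ : ∃ B₀, B₀ = B.filter (fun N => δ / 3 * (x / L ^ 2 * hh N) ≤ ((F N).card : ℝ)) := ⟨_, rfl⟩
      obtain ⟨B₁, hB₁⟩ : ∃ B₁, B₁ = B.filter (fun N => δ / 3 * (x / L ^ 2 * hh N) ≤ ((R ∩ PA w x N).card : ℝ)) := ⟨_, rfl⟩
      obtain ⟨B₂, hB₂⟩ : ∃ B₂, B₂ = B.filter (fun N => δ / 3 * (x / L ^ 2 * hh N) ≤
        ((R ∩ (PA w x N).image (fun p => N - p)).card : ℝ)) := ⟨_, rfl⟩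
      have hBB : B.card ≤ B₀.card + (B₁.card + B₂.card) := by
        have h1 : B ⊆ B₀ ∪ (B₁ ∪ B₂) := by
          intro N hN
          rw [hB₀, hB₁, hB₂, mem_union, mem_union, mem_filter, mem_filter, mem_filter]
          have h2 := hcov N hN
          have h3 := hmany X e1 x hx1 hx2 N (hBN N hN).1 (hBN N hN).2 (hS N (hBS hN)).2.2
          rw [← hL] at h3
          by_contra h4
          push Not at h4
          have h5 := h4.1 hN
          have h6 := h4.2.1 hN
          have h7 := h4.2.2 hN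
          linarith
        exact (card_le_card h1).trans ((card_union_le _ _).trans (Nat.add_le_add_left (card_union_le _ _) _))
      have hU6 : U.card ≤ 6 * (B.card * t) := by
        have h1 : U.card ≤ 6 * 𝒮.card := by omega
        exact h1.trans (Nat.mul_le_mul_left 6 h𝒮B)
      have hU6r : (U.card : ℝ) ≤ 6 * (B.card * t) := by exact_mod_cast hU6
      have hB0 : (0 : ℝ) < B.card := by exact_mod_cast hBpos
      have ht2 : (t : ℝ) * L ^ 2 ≤ c * x := by rwa [le_div_iff₀ (by positivity)] at ht1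
      -- few integers of the first kind
      have hB₀c : 2 * B₀.card ≤ B.card := by
        have h1 : (B₀.card : ℝ) * (δ / 3 * (x / L ^ 2)) ≤ U.card := by
          calc (B₀.card : ℝ) * (δ / 3 * (x / L ^ 2)) = ∑ _N ∈ B₀, δ / 3 * (x / L ^ 2) := by
                rw [sum_const, nsmul_eq_mul]
            _ ≤ ∑ N ∈ B₀, ((F N).card : ℝ) := by
                apply sum_le_sum
                intro N hN
                rw [hB₀, mem_filter] at hN
                refine le_trans ?_ hN.2
                have := one_le_hh N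
                apply mul_le_mul_of_nonneg_left _ (by positivity)
                have : 0 ≤ x / L ^ 2 := by positivity
                nlinarith
            _ ≤ ∑ N ∈ B, ((F N).card : ℝ) := by
                apply sum_le_sum_of_subset_of_nonneg
                · rw [hB₀]; exact filter_subset _ _
                · intro _ _ _; positivity
            _ ≤ _ := by exact_mod_cast hFc
        have h2 : (B₀.card : ℝ) * (δ / 3) * x ≤ 6 * B.card * (c * x) := by
          have h3 : (B₀.card : ℝ) * (δ / 3 * (x / L ^ 2)) * L ^ 2 ≤ 6 * (B.card * t) * L ^ 2 :=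
            mul_le_mul_of_nonneg_right (h1.trans hU6r) (by positivity)
          have h4 : (B₀.card : ℝ) * (δ / 3 * (x / L ^ 2)) * L ^ 2 = (B₀.card : ℝ) * (δ / 3) * x := by field_simp
          rw [h4] at h3
          have h5 : 6 * ((B.card : ℝ) * t) * L ^ 2 = 6 * B.card * (t * L ^ 2) := by ring
          rw [h5] at h3
          exact h3.trans (mul_le_mul_of_nonneg_left ht2 (by positivity))
        have h3 : (B₀.card : ℝ) * (δ / 3) ≤ 6 * B.card * c := by
          have : (B₀.card : ℝ) * (δ / 3) * x ≤ 6 * B.card * c * x := by linarith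
          exact le_of_mul_le_mul_right this hx0
        have h4 : 6 * (B.card : ℝ) * c ≤ 6 * B.card * (δ / 36) := mul_le_mul_of_nonneg_left hcδ (by positivity)
        have h5 : 2 * (B₀.card : ℝ) ≤ B.card := by
          have h6 : (B₀.card : ℝ) * (δ / 3) ≤ (B.card / 2) * (δ / 3) := by linarith
          have := le_of_mul_le_mul_right h6 (by positivity)
          linarith
        exact_mod_cast h5
      have hUc : ∀ m : ℕ, 1 ≤ m → m ≤ S.card →
          ¬ (δ / 3) ^ 2 * (m : ℝ) ^ 2 ≤ (24 * t * m * L / (K * x)) * (A * (m * L) + A * (4 * Real.exp 1 * b) *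
            ((m : ℝ) ^ 2 * Pool.Agent.H563.AG.ll X m)) := by
        intro m hm hmS
        have hm1 : (1 : ℝ) ≤ m := by exact_mod_cast hm
        have hmSr : (m : ℝ) ≤ S.card := by exact_mod_cast hmS
        have hSX : (S.card : ℝ) ≤ X := by
          have h1 : S ⊆ Ioc X (2 * X) := fun n hn => mem_Ioc.2 ⟨(hS n hn).1, (hS n hn).2.1⟩
          have h2 := card_le_card h1
          rw [Nat.card_Ioc] at h2
          exact_mod_cast (by omega : S.card ≤ X)
        have h3 : (m : ℝ) * ell X m ≤ S.card * ell X S.card := ell_mono (by linarith) hmSr (by linarith)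
        have h4 : Pool.Agent.H563.AG.ll X m ≤ 2 * ell X m := ell_comp hX1r (by linarith) (by linarith)
        have h5 : (t : ℝ) * (m * ell X m) * L ≤ c * K * x := by
          rw [le_div_iff₀ hL0] at hSc
          refine le_trans ?_ hSc
          apply mul_le_mul_of_nonneg_right _ hL0.le
          rw [mul_assoc]
          exact mul_le_mul_of_nonneg_left h3 ht0
        have hell1 : 1 ≤ ell X m := ell_one_le (by linarith) (by linarith)
        rw [not_le]
        have h6 : (24 * t * m * L / (K * x)) * (A * (m * L) + A * (4 * Real.exp 1 * b) *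
            ((m : ℝ) ^ 2 * Pool.Agent.H563.AG.ll X m)) ≤ (24 * A * (t * L ^ 2) / (K * x) +
              48 * A' * (t * (m * ell X m) * L) / (K * x)) * m ^ 2 := by
          have h7 : (24 * t * m * L / (K * x)) * (A * (m * L) + A * (4 * Real.exp 1 * b) *
            ((m : ℝ) ^ 2 * Pool.Agent.H563.AG.ll X m)) ≤ (24 * t * m * L / (K * x)) * (A * (m * L) + A' *
            ((m : ℝ) ^ 2 * (2 * ell X m))) := by
            rw [← hA']
            gcongr
          refine h7.trans (le_of_eq ?_)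
          field_simp
          ring
        refine lt_of_le_of_lt h6 ?_
        have h8 : 24 * A * (t * L ^ 2) / (K * x) ≤ (δ / 3) ^ 2 / 4 := by
          rw [div_le_iff₀ (by positivity)]
          have h9 : 24 * A * (t * L ^ 2) ≤ 24 * A * (c * x) := mul_le_mul_of_nonneg_left ht2 (by positivity)
          have h10 : 24 * A * (c * x) ≤ (δ / 3) ^ 2 / 4 * x := by nlinarith
          have h11 : (δ / 3) ^ 2 / 4 * x ≤ (δ / 3) ^ 2 / 4 * (K * x) := by
            apply mul_le_mul_of_nonneg_left _ (by positivity)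
            nlinarith
          linarith
        have h9 : 48 * A' * (t * (m * ell X m) * L) / (K * x) ≤ (δ / 3) ^ 2 / 4 := by
          rw [div_le_iff₀ (by positivity)]
          have h9 : 48 * A' * (t * (m * ell X m) * L) ≤ 48 * A' * (c * K * x) :=
            mul_le_mul_of_nonneg_left h5 (by positivity)
          have h10 : 48 * A' * (c * K * x) ≤ (δ / 3) ^ 2 / 4 * (K * x) := by
            have : 0 < K * x := by positivity
            nlinarith
          linarith
        have h12 : 0 < (δ / 3) ^ 2 := by positivity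
        exact mul_lt_mul_of_pos_right (by linarith) (by positivity)
      have hRr : ∀ m : ℕ, B.card ≤ 4 * m → (R.card : ℝ) ≤ (24 * t * m * L / (K * x)) * (x / L) := by
        intro m hm
        have h2 : K * R.card ≤ 24 * (t * m) := by
          calc K * R.card ≤ U.card := hRc
            _ ≤ 6 * (B.card * t) := hU6
            _ ≤ 6 * (4 * m * t) := Nat.mul_le_mul_left 6 (Nat.mul_le_mul_right t hm)
            _ = 24 * (t * m) := by ring
        have h3 : (K : ℝ) * R.card ≤ 24 * (t * m) := by exact_mod_cast h2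
        have h4 : (24 * t * m * L / (K * x)) * (x / L) = 24 * (t * m) / K := by
          field_simp
        rw [h4, le_div_iff₀ hK0]
        linarith
      rcases le_or_gt B.card (4 * B₁.card) with hc1 | hc1
      · have hB1 : 1 ≤ B₁.card := by omega
        have hsub : B₁ ⊆ B := by rw [hB₁]; exact filter_subset _ _
        apply hUc B₁.card hB1 (card_le_card (hsub.trans hBS))
        exact main_fam hb (fun n hn => (hM n hn).2) hA hL0 hx0 (by positivity) (fun N => PA w x N)
          (fun N hN => hBN N (hsub hN)) hB1 (fun N hN N' hN' h => f1 N N' (hBN N (hsub hN)).1 h)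
          (fun N hN => f3 N (hBN N (hsub hN)).1) R (hRr _ hc1) (by
            intro N hN
            rw [hB₁, mem_filter] at hN
            exact hN.2)
      · have hc2 : B.card ≤ 4 * B₂.card := by omega
        have hB2 : 1 ≤ B₂.card := by omega
        have hsub : B₂ ⊆ B := by rw [hB₂]; exact filter_subset _ _
        apply hUc B₂.card hB2 (card_le_card (hsub.trans hBS))
        exact main_fam hb (fun n hn => (hM n hn).2) hA hL0 hx0 (by positivity)
          (fun N => (PA w x N).image (fun p => N - p))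
          (fun N hN => hBN N (hsub hN)) hB2 (fun N hN N' hN' h => f2 N N' (hBN N (hsub hN)).1 h)
          (fun N hN => le_trans (by exact_mod_cast card_image_le) (f3 N (hBN N (hsub hN)).1)) R (hRr _ hc2) (by
            intro N hN
            rw [hB₂, mem_filter] at hN
            exact hN.2))
  choose! p i j hp using hf1
  refine ⟨fun n k => p (n, k), ?_, ?_, ?_⟩
  · intro n hn k hk
    exact (hp (n, k) (mem_product.2 ⟨hn, mem_range.2 hk⟩)).1
  · intro n hn k hk k' hk' h
    by_contra hne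
    have k1 : (n, k) ∈ S ×ˢ range t := mem_product.2 ⟨hn, mem_range.2 hk⟩
    have k2 : (n, k') ∈ S ×ˢ range t := mem_product.2 ⟨hn, mem_range.2 hk'⟩
    have h5 := (hp (n, k) k1).2.2.2
    have h6 := (hp (n, k') k2).2.2.2
    have h7 := hf2 (n, k) k1 (n, k') k2 (fun h => hne (Prod.mk.inj h).2)
    rw [h5, h6, disjoint_left] at h7
    apply h7 (show (1, n, p (n, k)) ∈ _ by simp)
    have h8 : p (n, k) = p (n, k') := h
    rw [h8]
    simp
  · intro v
    obtain ⟨V, hV⟩ : ∃ V, V = (S ×ˢ range t).filter (fun y => p (y.1, y.2) = v ∨ y.1 - p (y.1, y.2) = v) := ⟨_, rfl⟩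
    have hgoal : V.card ≤ (range K).card := by
      have hVm : ∀ y ∈ V, y ∈ S ×ˢ range t ∧ (p y = v ∨ y.1 - p y = v) := by
        intro y hy
        rw [hV, mem_filter] at hy
        exact hy
      apply card_le_card_of_injOn (fun y => if p y = v then i y else j y)
      · intro y hy
        rw [mem_coe] at hy
        obtain ⟨h1, h2⟩ := hVm y hy
        obtain ⟨g1, g2, g3, g4⟩ := hp y h1
        rw [mem_coe, mem_range]
        simp only
        split_ifs
        · exact g2
        · exact g3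
      · intro y hy y' hy' hyy
        rw [mem_coe] at hy hy'
        obtain ⟨h1, h2⟩ := hVm y hy
        obtain ⟨h1', h2'⟩ := hVm y' hy'
        by_contra hne
        have h5 := (hp y h1).2.2.2
        have h6 := (hp y' h1').2.2.2
        have h7 := hf2 y h1 y' h1' hne
        rw [h5, h6, disjoint_left] at h7
        have key : ∀ y, (p y = v ∨ y.1 - p y = v) → ((0 : ℕ), v, (if p y = v then i y else j y)) ∈
            ({(0, p y, i y), (0, y.1 - p y, j y), (1, y.1, p y)} : Finset (ℕ × ℕ × ℕ)) := by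
          intro y h
          rw [mem_insert, mem_insert, mem_singleton]
          split_ifs with h8
          · left; rw [h8]
          · right; left
            rw [h.resolve_left h8]
        apply h7 (key y h2)
        simp only at hyy
        rw [hyy]
        exact key y' h2'
    rw [card_range, hV] at hgoal
    exact hgoal

/-- the integers congruent to `2` -/
lemma two_mod (X W : ℕ) (hW : 0 < W) (hX : 1 ≤ X) : ∃ E : Finset ℕ,
    (∀ n ∈ E, X < n ∧ n ≤ 2 * X ∧ W ∣ n - 2 ∧ 2 ≤ n) ∧ (X : ℝ) / W - 3 ≤ E.card := by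
  classical
  obtain ⟨E, hE⟩ : ∃ E, E = (Ioc (X / W) ((2 * X - 2) / W)).image (fun t => 2 + W * t) := ⟨_, rfl⟩
  have hWr : (0 : ℝ) < W := by exact_mod_cast hW
  refine ⟨E, ?_, ?_⟩
  · intro n hn
    rw [hE, mem_image] at hn
    obtain ⟨t, ht, rfl⟩ := hn
    rw [mem_Ioc] at ht
    have h3 : X < W * t := by
      have := Nat.lt_mul_div_succ X hW
      calc X < W * (X / W + 1) := this
        _ ≤ W * t := Nat.mul_le_mul_left W ht.1
    have h4 : W * t ≤ 2 * X - 2 := by
      have := Nat.mul_div_le (2 * X - 2) W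
      exact (Nat.mul_le_mul_left W ht.2).trans this
    refine ⟨by omega, by omega, ?_, by omega⟩
    rw [Nat.add_sub_cancel_left]
    exact dvd_mul_right _ _
  · rw [hE, card_image_of_injective _ (fun a b h => by
      have h' : 2 + W * a = 2 + W * b := h
      exact Nat.eq_of_mul_eq_mul_left hW (by omega)), Nat.card_Ioc]
    have h3 : ((X / W : ℕ) : ℝ) ≤ (X : ℝ) / W := Nat.cast_div_le
    have h4 : ((2 * X - 2 : ℕ) : ℝ) / W < (((2 * X - 2) / W : ℕ) : ℝ) + 1 := by
      rw [div_lt_iff₀ hWr]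
      have := Nat.lt_mul_div_succ (2 * X - 2) hW
      have h5 : ((2 * X - 2 : ℕ) : ℝ) < ((W * ((2 * X - 2) / W + 1) : ℕ) : ℝ) := by exact_mod_cast this
      push_cast at h5 ⊢
      linarith
    have h5 : ((2 * X - 2 : ℕ) : ℝ) = 2 * X - 2 := by
      rw [Nat.cast_sub (by omega)]
      push_cast
      ring
    rw [h5] at h4
    have h6 : (((2 * X - 2) / W : ℕ) : ℝ) - ((X / W : ℕ) : ℝ) ≤ (((2 * X - 2) / W - X / W : ℕ) : ℝ) := by
      have : (((2 * X - 2) / W : ℕ) : ℝ) ≤ (((2 * X - 2) / W - X / W : ℕ) : ℝ) + ((X / W : ℕ) : ℝ) := by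
        exact_mod_cast (by omega : (2 * X - 2) / W ≤ ((2 * X - 2) / W - X / W) + X / W)
      linarith
    have h7 : (2 * (X : ℝ) - 2) / W = 2 * (X / W) - 2 / W := by ring
    have h8 : 2 / (W : ℝ) ≤ 2 := by
      rw [div_le_iff₀ hWr]
      have h9 : (1 : ℝ) ≤ W := by exact_mod_cast hW
      linarith
    rw [h7] at h4
    linarith

lemma low (θ : ℝ) (hθ0 : 0 < θ) (hθ1 : θ ≤ 1) : ∃ C : ℝ, 0 < C ∧ ∃ X₀ : ℕ, ∀ X : ℕ, X₀ ≤ X → ∀ x : ℝ,
    (X : ℝ) ^ θ ≤ x → x ≤ X / 2 → ∀ t K M : ℕ, 1 ≤ K → 1 ≤ M → 2 * M ≤ X →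
    C * K * x / Real.log X ≤ (t : ℝ) * M * ell X M →
    ∃ S : Finset ℕ, (∀ N ∈ S, X < N ∧ N ≤ 2 * X ∧ 2 ∣ N) ∧ S.card = M ∧
      ¬ WeakLoad (Real.log (2 * X / M) / 4) x t K S := by
  classical
  obtain ⟨A, hA, X₂, hfam⟩ := fam θ (1 / 4) hθ0 hθ1 (by positivity) le_rfl
  obtain ⟨x₁, hreal⟩ := realz
  obtain ⟨x₀, hx₀⟩ := Filter.eventually_atTop.1 (Real.tendsto_log_atTop.eventually_ge_atTop 4)
  obtain ⟨C, hC⟩ : ∃ C : ℝ, C = 20 * A + 1 := ⟨_, rfl⟩
  refine ⟨C, by rw [hC]; positivity, max X₂ (max ⌈x₀⌉₊ (max ⌈x₁⌉₊ 1)), ?_⟩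
  intro X hX x hx1 hx2 t K M hK1 hM1 hM2 hbig
  have e2 : X₂ ≤ X := (le_max_left _ _).trans hX
  have e3 : max ⌈x₀⌉₊ (max ⌈x₁⌉₊ 1) ≤ X := (le_max_right _ _).trans hX
  have hX1 : 1 ≤ X := (le_max_right _ _).trans ((le_max_right _ _).trans e3)
  have hLL := hx₀ X ((Nat.le_ceil _).trans (by exact_mod_cast (le_max_left _ _).trans e3))
  have hX1r : (1 : ℝ) ≤ X := by exact_mod_cast hX1
  have hX0 : (0 : ℝ) < X := by linarith
  have hx0 : 0 < x := lt_of_lt_of_le (by positivity) hx1
  have hM1r : (1 : ℝ) ≤ M := by exact_mod_cast hM1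
  have hM2r : 2 * (M : ℝ) ≤ X := by exact_mod_cast hM2
  have hKr : (1 : ℝ) ≤ K := by exact_mod_cast hK1
  obtain ⟨-, -, -, f4⟩ := hfam X e2 x hx1 hx2 ((X : ℝ) ^ (1 / 4 : ℝ) + 1) (by linarith)
  obtain ⟨L, hL⟩ : ∃ L, L = Real.log (X : ℝ) := ⟨_, rfl⟩
  rw [← hL] at hLL f4 hbig
  have hL0 : 0 < L := by linarith
  have hell1 : 1 ≤ ell X M := ell_one_le (by linarith) (by linarith)
  -- the count
  have main : ∀ z : ℕ, 4 ≤ z → (z : ℝ) ≤ L → ell X M ≤ 20 * Real.log z → K * (RZ z x).card < t * M := by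
    intro z hz hzL hell
    have hlz : 0 < Real.log z := Real.log_pos (by exact_mod_cast (by omega : 1 < z))
    have h1 := f4 z hz hzL
    have h2 : (K : ℝ) * (RZ z x).card ≤ K * (A * (x / (L * Real.log z))) := mul_le_mul_of_nonneg_left h1 (by linarith)
    have h3 : (K : ℝ) * (A * (x / (L * Real.log z))) * ell X M < C * K * x / L := by
      have h4 : C * K * x / L = (20 * A * Real.log z + Real.log z) * (K * x / (L * Real.log z)) := by
        rw [hC]
        field_simp
      have h5 : (K : ℝ) * (A * (x / (L * Real.log z))) * ell X M = (A * ell X M) * (K * x / (L * Real.log z)) := by ring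
      rw [h4, h5]
      apply mul_lt_mul_of_pos_right _ (by positivity)
      have : A * ell X M ≤ A * (20 * Real.log z) := mul_le_mul_of_nonneg_left hell hA.le
      linarith
    have h4 : (K : ℝ) * (RZ z x).card < t * M := by
      by_contra hcon
      push Not at hcon
      have h5 : (t : ℝ) * M * ell X M ≤ K * (A * (x / (L * Real.log z))) * ell X M :=
        mul_le_mul_of_nonneg_right (hcon.trans h2) (by linarith)
      linarith
    exact_mod_cast h4
  -- an assignment would use too few primes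
  have conc : ∀ z : ℕ, K * (RZ z x).card < t * M → ∀ S : Finset ℕ, S.card = M →
      (∀ N ∈ S, X < N ∧ N ≤ 2 * X ∧ 2 ∣ N) → (∀ N ∈ S, ∀ l : ℕ, l.Prime → 3 < l → l ≤ z → l ∣ N - 2 ∧ (l : ℝ) ≤ Real.log (2 * X / M) / 4) →
      ¬ WeakLoad (Real.log (2 * X / M) / 4) x t K S := by
    intro z hz S hSM hS hSl
    rintro ⟨p, hp1, hp2⟩
    have h1 : ∀ y ∈ S ×ˢ range t, p y.1 y.2 ∈ RZ z x := by
      rintro ⟨N, i⟩ hy
      rw [mem_product, mem_range] at hy
      obtain ⟨h3, h4, h5, h6⟩ := hp1 N hy.1 i hy.2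
      rw [mem_RZ]
      refine ⟨h4, h5, ?_⟩
      intro l hl hl3 hlz hmod
      obtain ⟨g1, g2⟩ := hSl N hy.1 l hl hl3 hlz
      apply h6 l hl g2
      have k6 : N % l = 2 % l := ((Nat.modEq_iff_dvd' (by have := (hS N hy.1).1; omega)).2 g1).symm
      exact (Nat.modEq_iff_dvd' h3.le).1 (hmod.trans k6.symm)
    have h2 : (S ×ˢ range t).card ≤ K * (RZ z x).card := by
      have h3 := card_le_mul_card_image_of_maps_to (f := fun y : ℕ × ℕ => p y.1 y.2) (s := S ×ˢ range t)
        (t := RZ z x) (fun y hy => h1 y hy) K (fun v _ => hp2 v)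
      exact h3
    rw [card_product, card_range, hSM, mul_comm] at h2
    omega
  rcases hreal X M (by
    refine (Nat.le_ceil x₁).trans ?_
    exact_mod_cast (le_max_left _ _).trans ((le_max_right _ _).trans e3)) hM1r hM2r with h | ⟨z, hz4, hz1, hz2, hz3, hz5⟩
  · -- all primes
    obtain ⟨S, hS1, hS2⟩ : ∃ S : Finset ℕ, (∀ N ∈ S, X < N ∧ N ≤ 2 * X ∧ 2 ∣ N) ∧ S.card = M := by
      refine ⟨(range M).image (fun k => 2 * X - 2 * k), ?_, ?_⟩
      · intro N hN
        rw [mem_image] at hN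
        obtain ⟨k, hk, rfl⟩ := hN
        rw [mem_range] at hk
        omega
      · rw [card_image_of_injOn, card_range]
        intro a ha b hb hab
        rw [mem_coe, mem_range] at ha hb
        simp only at hab
        omega
    refine ⟨S, hS1, hS2, conc 4 (main 4 le_rfl (by push_cast; linarith) ?_) S hS2 hS1 ?_⟩
    · have h1 : 1 ≤ Real.log ((4 : ℕ) : ℝ) := by
        rw [Real.le_log_iff_exp_le (by norm_num)]
        push_cast
        linarith [Real.exp_one_lt_d9]
      have : ell X M ≤ 20 := h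
      linarith
    · intro N _ l hl hl3 hl4
      have : l = 4 := by omega
      rw [this] at hl
      exact absurd hl (by norm_num)
  · obtain ⟨W, hW⟩ : ∃ W, W = primorial z := ⟨_, rfl⟩
    have hW0 : 0 < W := by rw [hW]; exact primorial_pos z
    have hWd : ∀ l : ℕ, l.Prime → l ≤ z → l ∣ W := by
      intro l hl hlz
      rw [hW]
      exact (Nat.Prime.dvd_primorial_iff hl).2 hlz
    have hW4 : (W : ℝ) ≤ 4 ^ z := by
      have h3 : W ≤ 4 ^ z := by rw [hW]; exact primorial_le_four_pow z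
      exact_mod_cast h3
    have hWr : (0 : ℝ) < W := by exact_mod_cast hW0
    obtain ⟨E, hE, hEc⟩ := two_mod X W hW0 hX1
    have hcard : M ≤ E.card := by
      have h5 : (X : ℝ) / 4 ^ z ≤ X / W := div_le_div_of_nonneg_left hX0.le hWr hW4
      have h6 : (M : ℝ) ≤ E.card := by linarith
      exact_mod_cast h6
    obtain ⟨S, hS1, hS2⟩ := exists_subset_card_eq hcard
    have hSe : ∀ N ∈ S, X < N ∧ N ≤ 2 * X ∧ 2 ∣ N := by
      intro N hN
      obtain ⟨h1, h2, h3, h4⟩ := hE N (hS1 hN)
      refine ⟨h1, h2, ?_⟩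
      have h5 : 2 ∣ N - 2 := (hWd 2 Nat.prime_two (by omega)).trans h3
      omega
    refine ⟨S, hSe, hS2, conc z (main z hz4 (by rw [hL]; exact hz2) ?_) S hS2 hSe ?_⟩
    · have h1 : 0 < Real.log z := Real.log_pos (by exact_mod_cast (by omega : 1 < z))
      have h2 : ell X M ≤ 8 * Real.log z := hz5
      linarith
    · intro N hN l hl _ hlz
      refine ⟨(hWd l hl hlz).trans (hE N (hS1 hN)).2.2.1, ?_⟩
      have : (l : ℝ) ≤ z := by exact_mod_cast hlz
      linarith

/-- **Representations of arbitrary sets of even numbers with bounded load.** Let `θ ≤ 1`, `0 < τ < θ / 2` and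
`10 / 9 < (r + 3 / 80) τ` (such a `τ` exists if `r + 3 / 80 > 20 / (9 θ)`, for instance `r = 3` and `θ ≥ 3 / 4`).
There are `c, C > 0` such that for all large `X`, all `x` with `X ^ θ ≤ x ≤ X / 2` and all `t ≥ 0`, `K ≥ 1`:

1. let `t ≤ c x / log ^ 2 X`. For EVERY set `S` of even numbers of `(X, 2 X]` with
  `t |S| (1 + log (1 + log (2 X / |S|))) ≤ c K x / log X` there are `t` different representations `N = p + m` for each
  `N ∈ S`, with a prime `p`, `x / 4 < p < x`, and `m` with at most `r` prime factors, all at least `N ^ (τ / 4) / 2`,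
  such that every integer is used in at most `K` of these `t |S|` representations, as `p` or as `m`;
2. for every `M` with `1 ≤ M ≤ X / 2` and `t M (1 + log (1 + log (2 X / M))) ≥ C K x / log X` there is a set `S` of
  `M` even numbers of `(X, 2 X]` for which there are no primes `p N i < x` (`N ∈ S`, `i < t`) such that `N - p N i` has
  no prime factor up to `log (2 X / M) / 4` and every prime is used at most `K` times. -/
theorem result (r : ℕ) (θ τ : ℝ) (hτ0 : 0 < τ) (hτθ : τ < θ / 2) (hθ1 : θ ≤ 1) (hr : 10 / 9 < (r + 3 / 80) * τ) :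
    ∃ c C : ℝ, 0 < c ∧ 0 < C ∧ ∃ X₀ : ℕ, ∀ X : ℕ, X₀ ≤ X → ∀ x : ℝ, (X : ℝ) ^ θ ≤ x → x ≤ X / 2 →
      ∀ t K : ℕ, 1 ≤ K →
      ((t : ℝ) ≤ c * x / Real.log X ^ 2 → ∀ S : Finset ℕ, (∀ N ∈ S, X < N ∧ N ≤ 2 * X ∧ 2 ∣ N) →
        (t : ℝ) * S.card * ell X S.card ≤ c * K * x / Real.log X → HasLoad r (τ / 4) x t K S) ∧
      ∀ M : ℕ, 1 ≤ M → 2 * M ≤ X → C * K * x / Real.log X ≤ (t : ℝ) * M * ell X M →
        ∃ S : Finset ℕ, (∀ N ∈ S, X < N ∧ N ≤ 2 * X ∧ 2 ∣ N) ∧ S.card = M ∧
          ¬ WeakLoad (Real.log (2 * X / M) / 4) x t K S := by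
  obtain ⟨c, hc, hc1, X₁, h1⟩ := up r θ τ hτ0 hτθ hθ1 hr
  obtain ⟨C, hC, X₂, h2⟩ := low θ (by linarith) hθ1
  refine ⟨c, C, hc, hC, max X₁ X₂, ?_⟩
  intro X hX x hx1 hx2 t K hK
  exact ⟨fun ht S hS hSc => h1 X ((le_max_left _ _).trans hX) x hx1 hx2 t K hK ht S hS hSc,
    fun M hM1 hM2 hM3 => h2 X ((le_max_right _ _).trans hX) x hx1 hx2 t K M hK hM1 hM2 hM3⟩

end Pool.Agent.Results.MP_73b532_nt.BoundedLoad
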