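import Pool.Agent.H566.BohrAsy

/-!
# The number of Goldbach partitions with a smaller prime larger than the square root, for almost all even integers in
# sparse linear Bohr sets

For real `α`, `β` and `0 < δ ≤ 1` consider the even integers `N ≤ X` with `‖α N + β‖ ≤ δ`, where `‖·‖` is the
distance to the nearest integer. There are about `δ X` of them; `δ` may be as small as a power `X ^ (-θ)`. If `α` is not too close to fractions with small denominators, then for all but a proportion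
`(log X) ^ (-A)` of these integers `N` the number of the primes `p`, `√N < p ≤ N / 2`, for which `N - p` is a prime, is
the one predicted by Hardy and Littlewood up to a relative error of at most `ε`, and so is the number of the `p` in an
arbitrary window `(U, V]`, `V ≤ N / 2`, of length at least `N / (log N) ^ W`.

* This holds for `θ < 1 / 3` and all large `X` if `α` is badly approximable, and generally for
  `θ < (2 / 3) (1 + 1 / τ) - 1` if `‖α q‖ ≥ c q ^ (-τ)` for all `q ≥ 1`.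
* For EVERY irrational `α` and `θ < 1 / 3` it holds for arbitrarily large `X`; so for all real `β` there are
  infinitely many even `N` with `‖α N + β‖ < N ^ (-θ)` which satisfy the asymptotic formula.

Definition from the starting files: `Pool.Agent.H560R3.GB.sing N = 2 C₂ ∏_{p ∣ N, p > 2} (p - 1) / (p - 2)` with
`C₂ = ∏_{p > 2} (1 - 1 / (p - 1) ^ 2)`.

Proof. By a theorem of helper567 (`H567/HW`) all the residue classes modulo `q` have few exceptions if
`q ≤ X ^ (2 / 3 - ρ)` is not divisible by a member of a set `D` of at most `(log X) ^ c` integers larger than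
`(log X) ^ (c + 1)`. Let `a / q` be a reduced fraction near `α`, `q ≤ Q` (Dirichlet), and `b / r` a fraction with
`a r - b q = 1`. Among the mediants `(u a + b) / (u q + r)` for `(log X) ^ (c + 1)` consecutive `u` near `Q / q` there
is one whose denominator `q₀` is not divisible by a member of `D`; it is at a distance of at most `3 / (q Q)` from `α`.
The Bohr set is contained in at most `5 δ q₀` residue classes modulo `q₀`.
-/

set_option autoImplicit false

namespace Pool.Agent.Results.MP_73b532_nt.LinearBohrSets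

open Finset
open Pool.Agent.H560R3.GB (sing)

/-- The distance of a real number to the nearest integer. -/
noncomputable def distInt (x : ℝ) : ℝ := |x - round x|

/-- The number of the primes `p` with `√N < p ≤ N / 2` for which `N - p` is a prime. -/
def partitions (N : ℕ) : ℕ := ((range N).filter (fun p => p.Prime ∧ (N - p).Prime ∧ N < p ^ 2 ∧ 2 * p ≤ N)).card

/-- The number of the primes `p` with `U < p ≤ V` for which `N - p` is a prime. -/
def count (N U V : ℕ) : ℕ := ((Ioc U V).filter (fun p => p.Prime ∧ (N - p).Prime)).card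

/-- The number `partitions N` is the predicted one up to a relative error of at most `ε`, and so is the number of the
primes `p` in the window `(U, V]` for which `N - p` is a prime, for all windows in `[0, N / 2]` of length at least
`N / (log N) ^ W`. -/
def Good (ε : ℝ) (W N : ℕ) : Prop :=
  |(partitions N : ℝ) - sing N * (N / (2 * Real.log N ^ 2))| ≤ ε * (sing N * (N / (2 * Real.log N ^ 2))) ∧
  ∀ U V : ℕ, U ≤ V → 2 * V ≤ N → (N : ℝ) / Real.log N ^ W ≤ (V : ℝ) - U →
    |(count N U V : ℝ) - sing N * (((V : ℝ) - U) / Real.log N ^ 2)| ≤ ε * (sing N * (((V : ℝ) - U) / Real.log N ^ 2))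

/-- The even integers `0 < N ≤ X` with `‖α N + β‖ ≤ δ`. -/
def bohr (X α β δ : ℝ) : Set ℕ := {N : ℕ | 0 < N ∧ (N : ℝ) ≤ X ∧ 2 ∣ N ∧ distInt (α * N + β) ≤ δ}

/-- The Bohr set has at least `δ X / 4` even members up to `X`, and at most `δ X / (log X) ^ A` of them are not
good. -/
def AlmostAllGood (ε : ℝ) (W A : ℕ) (X α β δ : ℝ) : Prop :=
  (bohr X α β δ).Finite ∧ δ * X / 4 ≤ ((bohr X α β δ).ncard : ℝ) ∧
    (({N ∈ bohr X α β δ | ¬ Good ε W N}.ncard : ℕ) : ℝ) ≤ δ * X / Real.log X ^ A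

lemma partitions_eq (N : ℕ) (hN : 2 ∣ N) (hN0 : 0 < N) : partitions N = count N (Nat.sqrt N) (N / 2) := by
  unfold partitions count
  congr 1
  ext p
  simp only [mem_filter, mem_range, mem_Ioc]
  constructor
  · rintro ⟨h1, h2, h3, h4, h5⟩
    refine ⟨⟨?_, by omega⟩, h2, h3⟩
    rw [Nat.sqrt_lt, ← pow_two]
    exact h4
  · rintro ⟨⟨h1, h2⟩, h3, h4⟩
    rw [Nat.sqrt_lt, ← pow_two] at h1
    exact ⟨by omega, h3, h4, h1, by omega⟩

theorem good_of (ε : ℝ) (hε : 0 < ε) (W : ℕ) : ∃ m₀ : ℕ, ∀ N : ℕ, m₀ ≤ N → 2 ∣ N →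
    Pool.Agent.H566.Asy (min ε 1 / 4) (W + 1) N → Good ε W N := by
  obtain ⟨e, he⟩ : ∃ e : ℝ, e = min ε 1 := ⟨_, rfl⟩
  have he0 : 0 < e := by rw [he]; exact lt_min hε (by norm_num)
  have heε : e ≤ ε := by rw [he]; exact min_le_left _ _
  have he1 : e ≤ 1 := by rw [he]; exact min_le_right _ _
  obtain ⟨m₁, hm₁⟩ := exists_nat_gt (Real.exp 4)
  obtain ⟨m₂, hm₂⟩ := exists_nat_gt ((8 / e) ^ 2)
  refine ⟨m₁ + m₂ + 16, fun N hN h2N h => ?_⟩
  rw [← he] at h
  have hN0 : 0 < N := by omega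
  have hNr : (0 : ℝ) < N := by exact_mod_cast hN0
  have hN16 : (16 : ℝ) ≤ N := by exact_mod_cast (by omega : 16 ≤ N)
  have hlog : 4 ≤ Real.log N := by
    rw [Real.le_log_iff_exp_le hNr]
    have : (m₁ : ℝ) ≤ N := by exact_mod_cast (by omega : m₁ ≤ N)
    linarith
  have hNe : (8 / e) ^ 2 ≤ N := by
    have : (m₂ : ℝ) ≤ N := by exact_mod_cast (by omega : m₂ ≤ N)
    linarith
  have hs : 0 ≤ sing N := le_trans zero_le_one (Pool.Agent.H567.HW.one_le_SS N)
  have hmono : ∀ U V : ℕ, U ≤ V → 0 ≤ sing N * (((V : ℝ) - U) / Real.log N ^ 2) := by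
    intro U V hUV
    have : (U : ℝ) ≤ V := by exact_mod_cast hUV
    have h2 : 0 ≤ (V : ℝ) - U := by linarith
    positivity
  obtain ⟨-, hwin⟩ := h
  refine ⟨?_, fun U V hUV hVN hw => ?_⟩
  · have hsq : ((Nat.sqrt N : ℕ) : ℝ) ≤ Real.sqrt N := Real.nat_sqrt_le_real_sqrt
    have hsq2 : Real.sqrt N ≤ e / 8 * N := by
      have h1 : 8 / e ≤ Real.sqrt N := by
        apply Real.le_sqrt_of_sq_le
        exact hNe
      have h2 : Real.sqrt N * Real.sqrt N = N := Real.mul_self_sqrt hNr.le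
      rw [div_le_iff₀ he0] at h1
      have h3 : 0 ≤ Real.sqrt N := Real.sqrt_nonneg _
      nlinarith
    have hsq3 : Real.sqrt N ≤ N / 4 := by
      have h2 : Real.sqrt N * Real.sqrt N = N := Real.mul_self_sqrt hNr.le
      have h1 : 4 ≤ Real.sqrt N := by
        apply Real.le_sqrt_of_sq_le
        norm_num
        omega
      nlinarith
    obtain ⟨m, hm⟩ := h2N
    have hm2 : N / 2 = m := by omega
    have hmr : (N : ℝ) = 2 * m := by exact_mod_cast hm
    have hUVr : ((Nat.sqrt N : ℕ) : ℝ) ≤ (m : ℝ) := by linarith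
    have hUV : Nat.sqrt N ≤ N / 2 := by rw [hm2]; exact_mod_cast hUVr
    have h1 := hwin (Nat.sqrt N) (N / 2) hUV (by omega) (by
      rw [hm2]
      have h2 : (N : ℝ) / Real.log N ^ (W + 1) ≤ N / 4 := by
        apply div_le_div_of_nonneg_left hNr.le (by norm_num)
        calc (4 : ℝ) ≤ Real.log N := hlog
          _ = Real.log N ^ 1 := (pow_one _).symm
          _ ≤ Real.log N ^ (W + 1) := pow_le_pow_right₀ (by linarith) (by omega)
      linarith)
    have e0 : Pool.Agent.H567.HW.wc N (Nat.sqrt N) (N / 2) = partitions N :=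
      (partitions_eq N ⟨m, hm⟩ hN0).symm
    rw [e0, hm2] at h1
    obtain ⟨P, hP⟩ : ∃ P, P = sing N * (N / (2 * Real.log N ^ 2)) := ⟨_, rfl⟩
    obtain ⟨R, hR⟩ : ∃ R, R = sing N * (((m : ℝ) - (Nat.sqrt N : ℕ)) / Real.log N ^ 2) := ⟨_, rfl⟩
    rw [← hR] at h1
    rw [← hP]
    have hP0 : 0 ≤ P := by rw [hP]; positivity
    have hRP : R ≤ P := by
      rw [hR, hP]
      apply mul_le_mul_of_nonneg_left _ hs
      rw [div_le_div_iff₀ (by positivity) (by positivity)]
      have : 0 ≤ ((Nat.sqrt N : ℕ) : ℝ) := Nat.cast_nonneg _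
      have h3 : 0 < Real.log N ^ 2 := by positivity
      nlinarith
    have hPR : P - R ≤ e / 4 * P := by
      have h3 : P - R = sing N * (((Nat.sqrt N : ℕ) : ℝ) / Real.log N ^ 2) := by
        rw [hR, hP, hmr]
        field_simp
        ring
      have h4 : e / 4 * P = sing N * ((e / 8 * N) / Real.log N ^ 2) := by
        rw [hP]
        field_simp
        ring
      rw [h3, h4]
      apply mul_le_mul_of_nonneg_left _ hs
      apply div_le_div_of_nonneg_right _ (by positivity)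
      linarith
    have h5 := abs_le.1 h1
    have h6 : e / 4 * R ≤ e / 4 * P := mul_le_mul_of_nonneg_left hRP (by linarith)
    have h7 : e * P ≤ ε * P := mul_le_mul_of_nonneg_right heε hP0
    have h8 : 0 ≤ e * P := mul_nonneg he0.le hP0
    rw [abs_le]
    constructor
    · linarith [h5.1]
    · linarith [h5.2]
  · have h1 := hwin U V hUV hVN (by
      refine le_trans ?_ hw
      apply div_le_div_of_nonneg_left hNr.le (by positivity)
      exact pow_le_pow_right₀ (by linarith) (by omega))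
    refine le_trans h1 ?_
    have h2 := hmono U V hUV
    apply mul_le_mul_of_nonneg_right _ h2
    linarith

/-- (1) A uniform theorem: all `α` which are not too close to fractions with small denominators.
(2) The numbers `α` of finite type; for `τ = 1` the badly approximable ones, with all `θ < 1 / 3`.
(3) All irrational `α` and `θ < 1 / 3`, for arbitrarily large `X`.
(4) Diophantine approximation by even integers with the predicted number of Goldbach partitions. -/
theorem result (ε : ℝ) (hε : 0 < ε) (A W : ℕ) :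
    (∀ ρ : ℝ, 0 < ρ → ∃ X₀ : ℝ, ∀ X : ℝ, X₀ ≤ X → ∀ α β δ : ℝ, 0 < δ → δ ≤ 1 →
      (∀ q : ℕ, 1 ≤ q → (q : ℝ) ≤ X ^ (1 / 3 + ρ) / δ → X ^ (ρ - 2 / 3) < distInt (α * q)) →
      AlmostAllGood ε W A X α β δ) ∧
    (∀ α c τ θ : ℝ, 0 < c → 1 ≤ τ → 0 ≤ θ → θ < 2 / 3 * (1 + 1 / τ) - 1 →
      (∀ q : ℕ, 1 ≤ q → c / (q : ℝ) ^ τ ≤ distInt (α * q)) →
      ∃ X₀ : ℝ, ∀ X : ℝ, X₀ ≤ X → ∀ β : ℝ, AlmostAllGood ε W A X α β (X ^ (-θ))) ∧
    (∀ α θ : ℝ, Irrational α → 0 ≤ θ → θ < 1 / 3 →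
      ∀ X₁ : ℝ, ∃ X : ℝ, X₁ ≤ X ∧ ∀ β : ℝ, AlmostAllGood ε W A X α β (X ^ (-θ))) ∧
    (∀ α β θ : ℝ, Irrational α → 0 ≤ θ → θ < 1 / 3 →
      {N : ℕ | 2 ∣ N ∧ distInt (α * N + β) < (N : ℝ) ^ (-θ) ∧ Good ε W N}.Infinite) := by
  have H1 : ∀ (A : ℕ) (ρ : ℝ), 0 < ρ → ∃ X₀ : ℝ, ∀ X : ℝ, X₀ ≤ X → ∀ α β δ : ℝ, 0 < δ → δ ≤ 1 →
      (∀ q : ℕ, 1 ≤ q → (q : ℝ) ≤ X ^ (1 / 3 + ρ) / δ → X ^ (ρ - 2 / 3) < distInt (α * q)) →
      AlmostAllGood ε W A X α β δ := by
    intro A ρ hρ
    have he : 0 < min ε 1 / 4 := by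
      have : 0 < min ε 1 := lt_min hε (by norm_num)
      linarith
    obtain ⟨x₀, h0⟩ := Pool.Agent.H566.bohr_main2 (Good ε W) ρ hρ A
      (Pool.Agent.H566.asy_class (Good ε W) (A + 1) (W + 1) (by linarith) he (good_of ε hε W))
    obtain ⟨x₁, h1⟩ := Pool.Agent.H566.bohr_lower2 ρ hρ
    refine ⟨max x₀ x₁, fun X hX α β δ hδ hδ1 hα => ⟨?_, ?_, ?_⟩⟩
    · refine (Set.finite_Iic ⌊X⌋₊).subset ?_
      intro n hn
      exact Nat.le_floor hn.2.1
    · exact h1 X ((le_max_right _ _).trans hX) α β δ hδ hδ1 hα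
    · have h2 := h0 X ((le_max_left _ _).trans hX) α β δ hδ hδ1 hα
      have e : {N ∈ bohr X α β δ | ¬ Good ε W N} = Pool.Agent.H566.badBohr (Good ε W) X α β δ := by
        ext n
        simp only [bohr, Pool.Agent.H566.badBohr, Set.mem_ofPred_eq, distInt, Pool.Agent.H566.dist1]
        tauto
      rw [e]
      exact h2
  have H3 : ∀ (A : ℕ) (α θ : ℝ), Irrational α → 0 ≤ θ → θ < 1 / 3 →
      ∀ X₁ : ℝ, ∃ X : ℝ, X₁ ≤ X ∧ ∀ β : ℝ, AlmostAllGood ε W A X α β (X ^ (-θ)) := by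
    intro A α θ hα hθ0 hθ X₁
    obtain ⟨ρ, hρ, h⟩ := Pool.Agent.H566.hyp_of_irrational2 α θ hα hθ
    obtain ⟨x₀, h0⟩ := H1 A ρ hρ
    obtain ⟨X, hX, hX1, h2⟩ := h (max x₀ X₁)
    exact ⟨X, (le_max_right _ _).trans hX, fun β => h0 X ((le_max_left _ _).trans hX) α β _
      (Real.rpow_pos_of_pos (by linarith) _) (Real.rpow_le_one_of_one_le_of_nonpos hX1 (by linarith)) h2⟩
  refine ⟨H1 A, ?_, H3 A, ?_⟩
  · intro α c τ θ hc hτ hθ0 hθ hα
    obtain ⟨ρ, hρ, x₁, h⟩ := Pool.Agent.H566.hyp_of_type2 τ c α θ hτ hc hα hθ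
    obtain ⟨x₀, h0⟩ := H1 A ρ hρ
    refine ⟨max (max x₀ x₁) 1, fun X hX β => ?_⟩
    have hX1 : 1 ≤ X := (le_max_right _ _).trans hX
    exact h0 X ((le_max_left _ _).trans ((le_max_left _ _).trans hX)) α β _
      (Real.rpow_pos_of_pos (by linarith) _) (Real.rpow_le_one_of_one_le_of_nonpos hX1 (by linarith))
      (h X ((le_max_right _ _).trans ((le_max_left _ _).trans hX)))
  · intro α β θ hα hθ0 hθ
    obtain ⟨θ', hθ', hθ''⟩ := exists_between hθ
    intro hfin
    obtain ⟨M, hM⟩ : ∃ M : ℝ, M = ({N : ℕ | 2 ∣ N ∧ distInt (α * N + β) < (N : ℝ) ^ (-θ) ∧ Good ε W N}.ncard : ℝ) :=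
      ⟨_, rfl⟩
    obtain ⟨x₁, hx₁1, hx₁⟩ := Pool.Agent.H566.log_pow_le 0 (1 - θ') (by linarith) (8 * M + 8)
    obtain ⟨X, hX, h⟩ := H3 1 α θ' hα (by linarith) hθ'' (max x₁ (Real.exp 8))
    have hX1 : x₁ ≤ X := (le_max_left _ _).trans hX
    have hX2 : Real.exp 8 ≤ X := (le_max_right _ _).trans hX
    have hXe : 1 < X := lt_of_lt_of_le (Real.one_lt_exp_iff.2 (by norm_num)) hX2
    have hXpos : 0 < X := by linarith
    have hlog : 8 ≤ Real.log X := (Real.le_log_iff_exp_le hXpos).2 hX2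
    have hg := hx₁ X hX1
    rw [pow_zero, mul_one] at hg
    obtain ⟨hf, hlow, hup⟩ := h β
    have e : X ^ (-θ') * X = X ^ (1 - θ') := by
      nth_rewrite 2 [← Real.rpow_one X]
      rw [← Real.rpow_add hXpos]
      congr 1; ring
    rw [e] at hlow hup
    rw [pow_one] at hup
    have hsub : bohr X α β (X ^ (-θ')) ⊆ {N ∈ bohr X α β (X ^ (-θ')) | ¬ Good ε W N} ∪
        {N : ℕ | 2 ∣ N ∧ distInt (α * N + β) < (N : ℝ) ^ (-θ) ∧ Good ε W N} := by
      intro n hn
      by_cases hG : Good ε W n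
      · right
        obtain ⟨h0, h1, h2, h3⟩ := hn
        refine ⟨h2, lt_of_le_of_lt h3 ?_, hG⟩
        have hn0 : (0 : ℝ) < n := by exact_mod_cast h0
        calc X ^ (-θ') < X ^ (-θ) := Real.rpow_lt_rpow_of_exponent_lt hXe (by linarith)
          _ ≤ (n : ℝ) ^ (-θ) := Real.rpow_le_rpow_of_nonpos hn0 h1 (by linarith)
      · left
        exact ⟨hn, hG⟩
    have hbf : {N ∈ bohr X α β (X ^ (-θ')) | ¬ Good ε W N}.Finite := hf.subset (fun n hn => hn.1)
    have h1 := Set.ncard_le_ncard hsub (hbf.union hfin)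
    have h2 := Set.ncard_union_le {N ∈ bohr X α β (X ^ (-θ')) | ¬ Good ε W N}
      {N : ℕ | 2 ∣ N ∧ distInt (α * N + β) < (N : ℝ) ^ (-θ) ∧ Good ε W N}
    have h3 : ((bohr X α β (X ^ (-θ'))).ncard : ℝ) ≤
        ({N ∈ bohr X α β (X ^ (-θ')) | ¬ Good ε W N}.ncard : ℝ) + M := by
      rw [hM]
      exact_mod_cast h1.trans h2
    have h4 : X ^ (1 - θ') / Real.log X ≤ X ^ (1 - θ') / 8 :=
      div_le_div_of_nonneg_left (Real.rpow_pos_of_pos hXpos _).le (by norm_num) hlog
    have hM0 : 0 ≤ M := by rw [hM]; exact Nat.cast_nonneg _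
    linarith

end Pool.Agent.Results.MP_73b532_nt.LinearBohrSets
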