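import Mathlib
import Pool.Agent.H528.GpE

set_option autoImplicit false

/-!
# The parity law for the Goldbach partitions `m = p + q`, `√m < p ≤ m / 2`, of almost all even `m`

For an even `m` let `K` be the number of the primes `p` with `√m < p ≤ m / 2` for which `m - p` is prime. Let `Λ₂` be the
function of Selberg and Bombieri, which counts the primes together with the products of two primes, and give the weight
`Λ₂(n) Λ₂(m - n)` to every `n` with `√m < n ≤ m / 2` such that `n` and `m - n` have no prime factor less than `N ^ ξ`,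
where `ξ ≤ ε`. For all even `m` in `(N / 2, N]` with at most `N ^ δ` exceptions, where `δ < 1`, the following is true up
to an error of at most `ε S`, where `S = 𝔖(m) (m / 2) (log N) ^ 2` with the singular series `𝔖(m)` of Hardy and Littlewood.

* The mass of all these `n` is `4 S`.
* The mass of the `n` for which `n` and `m - n` are both prime is `K (log N) ^ 4`.
* The mass of the `n` for which neither `n` nor `m - n` is prime, so that both are products of two primes,
  is THE SAME: it is `K (log N) ^ 4`.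
* The mass of the `n` for which exactly one of `n` and `m - n` is prime is `4 S - 2 K (log N) ^ 4`.

So, for almost all even `m`, the asymptotic formula of Hardy and Littlewood (`K` is about `𝔖(m) (m / 2) / (log N) ^ 2`) is
equivalent up to `ε` to the one for the number of representations of `m` as a sum of two semiprimes, and to the one for a
prime and a semiprime, and always `K ≤ (2 + ε) 𝔖(m) (m / 2) / (log N) ^ 2`.
-/

namespace Pool.Agent.Results.MP_73b532_nt.ParityLawSmallerPrime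

open Finset Filter

/-- the function `Λ₂(m) = ∑_{d ∣ m} μ(d) log² (m / d)` -/
noncomputable def Lambda2 (m : ℕ) : ℝ :=
  ∑ d ∈ m.divisors, (ArithmeticFunction.moebius d : ℝ) * Real.log ((m : ℝ) / d) ^ 2

/-- the local factors of the singular series: `(1 - 1 / p)⁻¹` if `p ∣ m`, and `(1 - 2 / p) (1 - 1 / p)⁻²` if not -/
noncomputable def factor (m p : ℕ) : ℝ :=
  if p ∣ m then (1 - 1 / (p : ℝ)) / (1 - 1 / (p : ℝ)) ^ 2 else (1 - 2 / (p : ℝ)) / (1 - 1 / (p : ℝ)) ^ 2

/-- the singular series of Goldbach's problem -/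
noncomputable def series (m : ℕ) : ℝ := ∏' p : Nat.Primes, factor m p

/-- the number of the primes `p` with `√m < p ≤ m / 2` for which `m - p` is prime -/
def partitions (m : ℕ) : ℕ := ((range m).filter (fun p => m < p ^ 2 ∧ 2 * p ≤ m ∧ p.Prime ∧ (m - p).Prime)).card

open Classical in
/-- the mass of the set `Q`: the sum of `Λ₂(n) Λ₂(m - n)` over the `n ∈ Q` with `√m < n ≤ m / 2` such that all prime
factors of `n` and of `m - n` are at least `N ^ ξ` -/
noncomputable def mass (Q : Set ℕ) (m : ℕ) (ξ : ℝ) (N : ℕ) : ℝ :=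
  ∑ n ∈ (range m).filter (fun n => m < n ^ 2 ∧ 2 * n ≤ m ∧ n ∈ Q ∧
    ∀ q : ℕ, q.Prime → (q ∣ n ∨ q ∣ m - n) → (N : ℝ) ^ ξ ≤ q), Lambda2 n * Lambda2 (m - n)

open Pool.Agent.Y822 Pool.Agent.Y822.Par3 Pool.Agent.H528.Lam Pool.Agent.H528.AsyL Pool.Agent.H528.It
open Pool.Agent.H528.Gp Pool.Agent.H387R2.Uni

lemma ro_iff' {ξ : ℝ} {N m : ℕ} (hN : 1 ≤ N) :
    (∀ q : ℕ, q.Prime → q ∣ m → (N : ℝ) ^ ξ ≤ q) ↔ Ro (zN ξ N) m := by
  constructor
  · intro h1 q hq hqz hqd
    have h3 := zN_lt' (ε₁ := ξ) hN (h1 q hq hqd)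
    omega
  · intro h1 q hq hqd
    by_contra h2
    push Not at h2
    exact h1 q hq (le_zN h2) hqd

lemma series_eq {m : ℕ} (hm : 1 ≤ m) : (fun p : Nat.Primes => locT (insert m {0}) p) = fun p : Nat.Primes => factor m p := by
  funext ⟨p, hp⟩
  unfold locT factor
  rw [card_H hm]
  have hp2 := hp.two_le
  by_cases h : p ∣ m
  · rw [if_pos h]
    have h1 : nuT (insert m {0}) p = 1 := by
      unfold nuT
      rw [image_insert, image_singleton, Nat.zero_mod, Nat.mod_eq_zero_of_dvd h]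
      simp
    rw [h1]
    norm_num
  · rw [if_neg h]
    have h1 : nuT (insert m {0}) p = 2 := by
      unfold nuT
      rw [image_insert, image_singleton, Nat.zero_mod, card_insert_of_notMem, card_singleton]
      rw [mem_singleton]
      exact fun h2 => h (Nat.dvd_of_mod_eq_zero h2)
    rw [h1]
    norm_num

lemma CT_eq {m : ℕ} (hm : 1 ≤ m) : CT (insert m {0}) = series m := by
  unfold CT series
  rw [series_eq hm]

open Classical in
lemma mass_eq (Q : Set ℕ) (m : ℕ) (ξ : ℝ) (N : ℕ) (hN : 1 ≤ N) :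
    mass Q m ξ N = ∑ n ∈ hs m, (if n ∈ Q then (1 : ℝ) else 0) * (lw (zN ξ N) n * lw (zN ξ N) (m - n)) := by
  unfold mass hs
  rw [sum_filter, sum_filter]
  have hsub : Ico 1 m ⊆ range m := by
    intro n hn
    rw [mem_Ico] at hn
    rw [mem_range]
    exact hn.2
  rw [← sum_subset hsub]
  · refine sum_congr rfl fun n hn => ?_
    by_cases h1 : m < n ^ 2 ∧ 2 * n ≤ m
    · rw [if_pos h1]
      by_cases hQ : n ∈ Q
      · rw [if_pos hQ, one_mul]
        unfold lw
        by_cases hr : Ro (zN ξ N) n ∧ Ro (zN ξ N) (m - n)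
        · rw [if_pos ⟨h1.1, h1.2, hQ, fun q hq hd => hd.elim ((ro_iff' hN).2 hr.1 q hq) ((ro_iff' hN).2 hr.2 q hq)⟩,
            Pool.Agent.H528.Avg.ro_of hr.1, Pool.Agent.H528.Avg.ro_of hr.2, one_mul, one_mul]
          rfl
        · rw [if_neg]
          · rw [not_and_or] at hr
            rcases hr with hr | hr
            · have : ro (zN ξ N) n = 0 := by unfold ro; rw [if_neg hr]
              rw [this, zero_mul, zero_mul]
            · have : ro (zN ξ N) (m - n) = 0 := by unfold ro; rw [if_neg hr]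
              rw [this, zero_mul, mul_zero]
          · rintro ⟨_, _, _, h⟩
            exact hr ⟨(ro_iff' hN).1 fun q hq hd => h q hq (Or.inl hd), (ro_iff' hN).1 fun q hq hd => h q hq (Or.inr hd)⟩
      · rw [if_neg hQ, zero_mul, if_neg fun h => hQ h.2.2.1]
    · rw [if_neg h1, if_neg fun h => h1 ⟨h.1, h.2.1⟩]
  · intro n hn hn'
    rw [mem_range] at hn
    rw [mem_Ico] at hn'
    have h0 : n = 0 := by omega
    subst h0
    rw [if_neg]
    rintro ⟨h, _⟩
    simp at h

lemma partitions_eq (m : ℕ) : (partitions m : ℝ) = ∑ n ∈ hs m, eP n * eP (m - n) := by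
  classical
  unfold partitions hs
  rw [card_eq_sum_ones, Nat.cast_sum, sum_filter, sum_filter]
  have hsub : Ico 1 m ⊆ range m := by
    intro n hn
    rw [mem_Ico] at hn
    rw [mem_range]
    exact hn.2
  rw [← sum_subset hsub]
  · refine sum_congr rfl fun n hn => ?_
    unfold eP
    by_cases h1 : m < n ^ 2 ∧ 2 * n ≤ m
    · rw [if_pos h1]
      by_cases h2 : n.Prime
      · by_cases h3 : (m - n).Prime
        · rw [if_pos ⟨h1.1, h1.2, h2, h3⟩, if_pos h2, if_pos h3]
          norm_num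
        · rw [if_neg (fun h => h3 h.2.2.2), if_neg h3, mul_zero]
      · rw [if_neg (fun h => h2 h.2.2.1), if_neg h2, zero_mul]
    · rw [if_neg h1, if_neg fun h => h1 ⟨h.1, h.2.1⟩]
  · intro n hn hn'
    rw [mem_range] at hn
    rw [mem_Ico] at hn'
    have h0 : n = 0 := by omega
    subst h0
    rw [if_neg]
    rintro ⟨h, _⟩
    simp at h

lemma mass_univ (m : ℕ) (ξ : ℝ) (N : ℕ) (hN : 1 ≤ N) :
    mass Set.univ m ξ N = ∑ n ∈ hs m, lw (zN ξ N) n * lw (zN ξ N) (m - n) := by
  rw [mass_eq _ m ξ N hN]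
  exact sum_congr rfl fun n _ => by rw [if_pos (Set.mem_univ n), one_mul]

lemma mass_both (m : ℕ) (ξ : ℝ) (N : ℕ) (hN : 1 ≤ N) :
    mass {n | n.Prime ∧ (m - n).Prime} m ξ N = ∑ n ∈ hs m, wp (zN ξ N) n * wp (zN ξ N) (m - n) := by
  classical
  rw [mass_eq _ m ξ N hN]
  refine sum_congr rfl fun n _ => ?_
  unfold wp eP
  by_cases h1 : n.Prime <;> by_cases h2 : (m - n).Prime <;> simp [h1, h2]

lemma mass_neither (m : ℕ) (ξ : ℝ) (N : ℕ) (hN : 1 ≤ N) :
    mass {n | ¬ n.Prime ∧ ¬ (m - n).Prime} m ξ N = ∑ n ∈ hs m, wc (zN ξ N) n * wc (zN ξ N) (m - n) := by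
  classical
  rw [mass_eq _ m ξ N hN]
  refine sum_congr rfl fun n _ => ?_
  unfold wc eP
  by_cases h1 : n.Prime <;> by_cases h2 : (m - n).Prime <;> simp [h1, h2]

lemma mass_one (m : ℕ) (ξ : ℝ) (N : ℕ) (hN : 1 ≤ N) :
    mass {n | ¬ (n.Prime ↔ (m - n).Prime)} m ξ N =
      ∑ n ∈ hs m, (wp (zN ξ N) n * wc (zN ξ N) (m - n) + wc (zN ξ N) n * wp (zN ξ N) (m - n)) := by
  classical
  rw [mass_eq _ m ξ N hN]
  refine sum_congr rfl fun n _ => ?_
  unfold wp wc eP
  by_cases h1 : n.Prime <;> by_cases h2 : (m - n).Prime <;> simp [h1, h2]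

open Classical in
theorem result :
    -- the singular series is a convergent product, positive for even numbers
    (∀ m : ℕ, 1 ≤ m → HasProd (fun p : Nat.Primes => factor m p) (series m) ∧ (Even m → 0 < series m)) ∧
    -- the values of `Λ₂`
    ((∀ p : ℕ, p.Prime → Lambda2 p = Real.log p ^ 2) ∧
      (∀ p q : ℕ, p.Prime → q.Prime → p ≠ q → Lambda2 (p * q) = 2 * Real.log p * Real.log q) ∧
      (∀ m : ℕ, 3 ≤ m.primeFactors.card → Lambda2 m = 0)) ∧
    -- the parity law
    ∀ ε : ℝ, 0 < ε → ∃ δ ξ : ℝ, 0 < δ ∧ δ < 1 ∧ 0 < ξ ∧ ξ ≤ ε ∧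
      ∃ N₀ : ℕ, ∀ N : ℕ, N₀ ≤ N →
        (((Icc 1 N).filter (fun m => N < 2 * m ∧ Even m ∧
          ¬ (|mass Set.univ m ξ N - 4 * (series m * (m / 2) * Real.log N ^ 2)| ≤
                ε * (series m * (m / 2) * Real.log N ^ 2) ∧
            |mass {n | n.Prime ∧ (m - n).Prime} m ξ N - partitions m * Real.log N ^ 4| ≤
                ε * (series m * (m / 2) * Real.log N ^ 2) ∧
            |mass {n | ¬ n.Prime ∧ ¬ (m - n).Prime} m ξ N - partitions m * Real.log N ^ 4| ≤
                ε * (series m * (m / 2) * Real.log N ^ 2) ∧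
            |mass {n | ¬ (n.Prime ↔ (m - n).Prime)} m ξ N -
                (4 * (series m * (m / 2) * Real.log N ^ 2) - 2 * (partitions m * Real.log N ^ 4))| ≤
                ε * (series m * (m / 2) * Real.log N ^ 2)))).card : ℝ) ≤ (N : ℝ) ^ δ := by
  have habs : ∀ (δ : ℝ) (B : ℕ), δ < 1 → ∃ N₁ : ℕ, ∀ N : ℕ, N₁ ≤ N →
      3 * ((N : ℝ) ^ δ * Real.log N ^ B) ≤ (N : ℝ) ^ ((1 + δ) / 2) := by
    intro δ B hδ
    have e2 := ev_logN (ev_pow_exp B ((1 - δ) / 2) 3 (by linarith))
    obtain ⟨N₀, hN₀⟩ := eventually_atTop.1 e2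
    refine ⟨max N₀ 1, fun N hN => ?_⟩
    have h2 := hN₀ N ((le_max_left _ _).trans hN)
    have hN1 : 1 ≤ N := (le_max_right _ _).trans hN
    have hN0 : (0 : ℝ) < N := by exact_mod_cast hN1
    have e3 : (N : ℝ) ^ ((1 + δ) / 2) = (N : ℝ) ^ δ * Real.exp ((1 - δ) / 2 * Real.log N) := by
      rw [mul_comm ((1 - δ) / 2), ← Real.rpow_def_of_pos hN0, ← Real.rpow_add hN0]
      congr 1
      ring
    rw [e3]
    calc 3 * ((N : ℝ) ^ δ * Real.log N ^ B) = (N : ℝ) ^ δ * (3 * Real.log N ^ B) := by ring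
      _ ≤ _ := by gcongr
  refine ⟨fun m hm => ⟨?_, fun he => ?_⟩, ⟨fun p hp => ?_, fun p q hp hq hpq => ?_, fun m hm => ?_⟩, fun ε hε => ?_⟩
  · rw [← CT_eq hm, ← series_eq hm]
    exact CT_hasProd _
  · rw [← CT_eq hm, ← CT_en]
    apply Pool.Agent.H386R2.HL.singularSeries_pos (en_inj _)
    intro p hp
    rw [nu_en]
    exact adm_H he p hp
  · have h1 : Lambda2 p = L2 p := rfl
    rw [h1, L2_one_pf hp.one_lt.le hp.primeFactors]
    ring
  · have h1 : Lambda2 (p * q) = L2 (p * q) := rfl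
    have h2 : (p * q).primeFactors = {p, q} := by
      rw [Nat.primeFactors_mul hp.ne_zero hq.ne_zero, hp.primeFactors, hq.primeFactors]
      rfl
    rw [h1, L2_two_pf (Nat.mul_pos hp.pos hq.pos) hpq h2]
  · have h1 : Lambda2 m = L2 m := rfl
    rcases Nat.eq_zero_or_pos m with rfl | h0
    · simp at hm
    · rw [h1, L2_three_pf h0 hm]
  · obtain ⟨δ, hδ1, hδ2, ξ, hξ, hξ8, hξε, B, hB⟩ := gp_half ε hε
    obtain ⟨N₁, hN₁⟩ := habs δ B hδ2
    obtain ⟨N₀, hN₀⟩ := eventually_atTop.1 hB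
    refine ⟨(1 + δ) / 2, ξ, by linarith, by linarith, hξ, hξε, max (max N₀ N₁) 1, fun N hN => ?_⟩
    have h1 := hN₀ N ((le_max_left _ _).trans ((le_max_left _ _).trans hN))
    have h2 := hN₁ N ((le_max_right _ _).trans ((le_max_left _ _).trans hN))
    have hN1 : 1 ≤ N := (le_max_right _ _).trans hN
    refine (h1 _ fun m hm => ?_).trans h2
    rw [mem_filter, mem_Icc] at hm
    obtain ⟨⟨hm1, hmN⟩, c1, c2, c3⟩ := hm
    refine ⟨c1, hmN, c2, fun hG => c3 ?_⟩
    unfold GoodH at hG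
    obtain ⟨g1, g2, g3, g4⟩ := hG
    rw [← mass_univ m ξ N hN1, CT_eq hm1] at g1
    rw [← mass_both m ξ N hN1, CT_eq hm1, ← partitions_eq] at g2
    rw [← mass_neither m ξ N hN1, CT_eq hm1, ← partitions_eq] at g3
    rw [← mass_one m ξ N hN1, CT_eq hm1, ← partitions_eq] at g4
    have e1 : series m * (m / 2 * Real.log N ^ 2) = series m * (m / 2) * Real.log N ^ 2 := by ring
    have e2 : (partitions m : ℝ) * Real.log N ^ 4 = Real.log N ^ 4 * partitions m := mul_comm _ _
    rw [e1] at g1 g2 g3 g4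
    rw [e2]
    exact ⟨g1, g2, g3, g4⟩

end Pool.Agent.Results.MP_73b532_nt.ParityLawSmallerPrime
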