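import Pool.Agent.H561.CM.A10

/-!
# Goldbach-Knjzek partitions of almost all even numbers at every scale of the smaller PRIME, in short windows

The Goldbach-Knjzek conjecture asks for a prime `p` with `√(2n) < p ≤ n` and `2n - p` prime. Here: for almost all even
`N = 2n ≤ X`, with at most `X / (log X) ^ A` exceptions, the number of these primes `p` in a window `(u, v]` is as
predicted by Hardy and Littlewood for ALL windows with `√N / (log N) ^ B ≤ v ≤ N` and `v - u ≥ v / (log N) ^ W`, so at every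
scale of `p` at once. In particular there is a prime `p` just above the square root, `√N < p ≤ √N (1 + 1 / (log N) ^ W)`,
such that `N - p` is a prime.

Definition used (in `Pool.Agent.H560R3.GB`): `sing N = 2 C₂ ∏_{p ∣ N, p > 2} (p - 1) / (p - 2)`, the singular series,
where `C₂ = ∏_{p > 2} (1 - 1 / (p - 1) ^ 2)` is the twin prime constant.

Proof (`Pool.Agent.H561`): Vaughan's identity, mean values of Dirichlet polynomials and Vinogradov's method (from the library) give the mean square of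
the error term for primes in arithmetic progressions to moduli up to powers of `log X` in intervals of length
`√X / (log X) ^ G`, compared with a sieve model; the circle method with the wide major arcs of the small prime. The
windows with `v > N / (log N) ^ D` are from the library.
-/

set_option autoImplicit false

namespace Pool.Agent.Results.MP_73b532_nt.PrimesAtEveryScale

open Finset
open Pool.Agent.H560R3.GB (sing)

open Classical in
/-- The number of the primes `p` with `u < p ≤ v` such that `N - p` is a prime different from `p`. -/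
noncomputable def pairs (N : ℕ) (u v : ℝ) : ℕ :=
  ((range (N + 1)).filter (fun p : ℕ => p.Prime ∧ (N - p).Prime ∧ p ≠ N - p ∧ u < p ∧ (p : ℝ) ≤ v)).card

/-- (1) For all `0 ≤ u < v` with `√N / (log N)^B ≤ v ≤ N` and `v - u ≥ v / (log N)^W` the number of the primes `p`,
`u < p ≤ v`, such that `N - p` is a prime different from `p`, is `sing N (v - u) / (log v log N)` up to a relative error
of at most `ε`; (2) there are primes `p ≠ r` with `p + r = N` and `√N < p ≤ √N + √N / (log N)^W`. -/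
def Holds (ε : ℝ) (W B N : ℕ) : Prop :=
  (∀ u v : ℝ, 0 ≤ u → √(N : ℝ) / Real.log N ^ B ≤ v → v ≤ N → v / Real.log N ^ W ≤ v - u →
    |(pairs N u v : ℝ) - sing N * (v - u) / (Real.log v * Real.log N)| ≤
      ε * (sing N * (v - u) / (Real.log v * Real.log N))) ∧
  ∃ p r : ℕ, p.Prime ∧ r.Prime ∧ p ≠ r ∧ p + r = N ∧ √(N : ℝ) < p ∧
    (p : ℝ) ≤ √(N : ℝ) + √(N : ℝ) / Real.log N ^ W

open Classical in
/-- the exceptional even numbers up to `X` -/
noncomputable def exceptional (ε : ℝ) (W B X : ℕ) : Finset ℕ :=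
  (Icc 1 X).filter (fun N : ℕ => 2 ∣ N ∧ ¬ Holds ε W B N)

lemma holds_of (ε : ℝ) (hε : 0 < ε) (W B : ℕ) : ∃ N₀ : ℕ, ∀ N : ℕ, N₀ ≤ N →
    Pool.Agent.H561.CM.HoldsA (min ε (1 / 2)) (W + 1) B N → Holds ε W B N := by
  obtain ⟨δ, hδ⟩ : ∃ δ, δ = min ε (1 / 2) := ⟨_, rfl⟩
  have hδ0 : 0 < δ := by rw [hδ]; positivity
  have hδ1 : δ ≤ 1 / 2 := by rw [hδ]; exact min_le_right _ _
  have hδε : δ ≤ ε := by rw [hδ]; exact min_le_left _ _
  rw [← hδ]
  obtain ⟨m2, h2⟩ := Pool.Agent.H373R2.T7.ev_L' 4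
  obtain ⟨m3, h3⟩ := Pool.Agent.H373R2.T7.ev_log' (B + W + 2) 4
  refine ⟨m2 + m3 + 100, fun m hm hA => ?_⟩
  have hL := h2 m (by omega)
  have a3 := h3 m (by omega)
  have hm0 : (0 : ℝ) < m := by exact_mod_cast (by omega : 0 < m)
  have hm100 : (100 : ℝ) ≤ m := by exact_mod_cast (by omega : 100 ≤ m)
  have hss : √(m : ℝ) * √(m : ℝ) = m := Real.mul_self_sqrt hm0.le
  have hs0 : 0 < √(m : ℝ) := Real.sqrt_pos.2 hm0
  have hs10 : 10 ≤ √(m : ℝ) := by
    apply Real.le_sqrt_of_sq_le
    linarith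
  have hsing := Pool.Agent.W93.GB.one_le_sing m
  have hpd : ∀ u v : ℝ, pairs m u v = Pool.Agent.R460.GH.dist m u v := fun _ _ => rfl
  have hLpos : 0 < Real.log (m : ℝ) := by linarith
  have hL1 : 1 ≤ Real.log (m : ℝ) := by linarith
  have hW1 : (1 : ℝ) ≤ Real.log (m : ℝ) ^ W := one_le_pow₀ hL1
  have hWW : Real.log (m : ℝ) ≤ Real.log (m : ℝ) ^ (W + 1) := le_self_pow₀ hL1 (by omega)
  have hB1 : (1 : ℝ) ≤ Real.log (m : ℝ) ^ B := one_le_pow₀ hL1
  have hsB : 4 ≤ √(m : ℝ) / Real.log m ^ B := by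
    rw [le_div_iff₀ (by positivity)]
    refine le_trans ?_ a3
    have : Real.log (m : ℝ) ^ B ≤ Real.log m ^ (B + W + 2) := pow_le_pow_right₀ hL1 (by omega)
    linarith
  constructor
  · intro u v hu hv hvm huv
    have hv0 : 0 < v := by linarith
    have e0 : v / Real.log m ^ (W + 1) ≤ v - u := by
      refine le_trans ?_ huv
      apply div_le_div_of_nonneg_left hv0.le (by positivity)
      exact pow_le_pow_right₀ hL1 (by omega)
    rw [hpd]
    refine (hA u v hu hv hvm e0).trans ?_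
    have e3 : 0 ≤ v - u := (div_nonneg hv0.le (by positivity)).trans huv
    apply mul_le_mul_of_nonneg_right hδε
    apply div_nonneg
    · exact mul_nonneg (by linarith) e3
    · exact mul_nonneg (Real.log_nonneg (by linarith)) hLpos.le
  · have hq : √(m : ℝ) / Real.log m ^ W ≤ √(m : ℝ) := div_le_self hs0.le hW1
    have hq0 : 0 < √(m : ℝ) / Real.log m ^ W := by positivity
    have hvm : √(m : ℝ) + √(m : ℝ) / Real.log m ^ W ≤ m := by nlinarith
    have hmain := hA (√(m : ℝ)) (√(m : ℝ) + √(m : ℝ) / Real.log m ^ W) hs0.le (by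
      have : √(m : ℝ) / Real.log m ^ B ≤ √(m : ℝ) := div_le_self hs0.le hB1
      linarith) hvm (by
      rw [add_sub_cancel_left, pow_succ, ← div_div]
      rw [div_le_iff₀ hLpos]
      have e1 : (√(m : ℝ) + √(m : ℝ) / Real.log m ^ W) / Real.log m ^ W ≤ 2 * (√(m : ℝ) / Real.log m ^ W) := by
        rw [div_le_iff₀ (by positivity)]
        have : √(m : ℝ) / Real.log m ^ W * Real.log m ^ W = √(m : ℝ) := by field_simp
        nlinarith
      nlinarith)
    rw [add_sub_cancel_left] at hmain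
    have hlv : 0 < Real.log (√(m : ℝ) + √(m : ℝ) / Real.log m ^ W) := Real.log_pos (by linarith)
    obtain ⟨M, hM⟩ : ∃ M, M = sing m * (√(m : ℝ) / Real.log m ^ W) /
      (Real.log (√(m : ℝ) + √(m : ℝ) / Real.log m ^ W) * Real.log m) := ⟨_, rfl⟩
    rw [← hM] at hmain
    have hM0 : 0 < M := by
      rw [hM]
      apply div_pos
      · exact mul_pos (by linarith) hq0
      · exact mul_pos hlv hLpos
    have e1 : 0 < (pairs m (√(m : ℝ)) (√(m : ℝ) + √(m : ℝ) / Real.log m ^ W) : ℝ) := by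
      rw [hpd]
      rw [abs_le] at hmain
      have : δ * M ≤ 1 / 2 * M := mul_le_mul_of_nonneg_right hδ1 hM0.le
      linarith
    have e2 : 0 < pairs m (√(m : ℝ)) (√(m : ℝ) + √(m : ℝ) / Real.log m ^ W) := by exact_mod_cast e1
    unfold pairs at e2
    rw [card_pos] at e2
    obtain ⟨p, hp⟩ := e2
    rw [mem_filter, mem_range] at hp
    obtain ⟨p1, p2, p3, p4, p5, p6⟩ := hp
    exact ⟨p, m - p, p2, p3, p4, by omega, p5, p6⟩

/-- **Primes at every scale.** For all `ε > 0`, `W`, `B` and `A` and all large `X` all but at most `X / (log X) ^ A` of the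
even numbers `N ≤ X` have the property `Holds ε W B N`: the number of the primes `p` in `(u, v]` with `N - p` prime (and
`≠ p`) is `sing N (v - u) / (log v log N)`, up to a factor between `1 - ε` and `1 + ε`, for all `0 ≤ u < v` with
`√N / (log N)^B ≤ v ≤ N` and `v - u ≥ v / (log N)^W`, and there is a prime `p` with `√N < p ≤ √N + √N / (log N)^W` such that
`N - p` is a prime. -/
theorem result (ε : ℝ) (hε : 0 < ε) (W B A : ℕ) :
    ∃ X₀ : ℕ, ∀ X : ℕ, X₀ ≤ X → ((exceptional ε W B X).card : ℝ) ≤ X / Real.log X ^ A := by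
  classical
  obtain ⟨N0, hN0⟩ := holds_of ε hε W B
  obtain ⟨X1, h1⟩ := Pool.Agent.H561.CM.allA (min ε (1 / 2)) (by positivity) (W + 1) B (A + 1)
  obtain ⟨X2, h2⟩ := Pool.Agent.H373R2.T7.ev_L' 2
  obtain ⟨X3, h3⟩ := Pool.Agent.H373R2.T7.ev_log' A 2
  refine ⟨X1 + X2 + X3 + N0 ^ 2 + 1, fun X hX => ?_⟩
  have a1 := h1 X (by omega)
  have hL := h2 X (by omega)
  have a3 := h3 X (by omega)
  have hX0 : (0 : ℝ) < X := by exact_mod_cast (by omega : 0 < X)
  have hss : √(X : ℝ) * √(X : ℝ) = X := Real.mul_self_sqrt hX0.le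
  have hsub : exceptional ε W B X ⊆ range N0 ∪
      (Icc 1 X).filter (fun m : ℕ => 2 ∣ m ∧ ¬ Pool.Agent.H561.CM.HoldsA (min ε (1 / 2)) (W + 1) B m) := by
    intro m hm
    unfold exceptional at hm
    rw [mem_filter] at hm
    rw [mem_union, mem_range, mem_filter]
    by_cases hmN : m < N0
    · left; exact hmN
    · right
      exact ⟨hm.1, hm.2.1, fun hA => hm.2.2 (hN0 m (by omega) hA)⟩
  have hc : ((exceptional ε W B X).card : ℝ) ≤ N0 + X / Real.log X ^ (A + 1) := by
    have e1 := (card_le_card hsub).trans (card_union_le _ _)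
    rw [card_range] at e1
    have e2 : ((exceptional ε W B X).card : ℝ) ≤ (N0 : ℝ) +
        ((Icc 1 X).filter (fun m : ℕ => 2 ∣ m ∧ ¬ Pool.Agent.H561.CM.HoldsA (min ε (1 / 2)) (W + 1) B m)).card := by
      exact_mod_cast e1
    refine e2.trans ?_
    gcongr
  refine hc.trans ?_
  have hN0s : (N0 : ℝ) ≤ √(X : ℝ) := by
    apply Real.le_sqrt_of_sq_le
    have : N0 ^ 2 ≤ X := by omega
    exact_mod_cast this
  obtain ⟨L, hLd⟩ : ∃ L, L = Real.log (X : ℝ) := ⟨_, rfl⟩
  rw [← hLd] at hL a3 ⊢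
  have hL0 : 0 < L := by linarith
  have e1 : √(X : ℝ) ≤ X / L ^ A / 2 := by
    rw [le_div_iff₀ (by norm_num), le_div_iff₀ (by positivity)]
    calc √(X : ℝ) * 2 * L ^ A = √(X : ℝ) * (2 * L ^ A) := by ring
      _ ≤ √(X : ℝ) * √(X : ℝ) := by gcongr
      _ = X := hss
  have e2 : (X : ℝ) / L ^ (A + 1) ≤ X / L ^ A / 2 := by
    rw [pow_succ, div_div]
    gcongr
  linarith

end Pool.Agent.Results.MP_73b532_nt.PrimesAtEveryScale
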